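import Pool.Agent.Q55.Gp.Sp
import Pool.Agent.Y133.Half.Num
import Pool.Agent.Q57.OP.Res

/-!
# The algebra of the algebraic correspondences of degree zero and the Frobenius endomorphisms
-/

set_option autoImplicit false

open CategoryTheory AlgebraicGeometry
open scoped TensorProduct

universe u v

namespace Pool.Agent.Q55.Gp

open Module
open Pool.Agent.H914 Pool.Agent.H914.VarClass Pool.Agent.H914.VarClass.Obj
  Pool.Agent.H914.WeilCohomology Pool.Agent.W534 Pool.Agent.Y133.Half Pool.Agent.W552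
  Pool.Agent.H281R3.HT Pool.Agent.TH132.P

variable {k : Type u} [Field k] {𝒱 : VarClass k} {ops : CycleOps 𝒱}
  {W : WeilCohomology.{u, v} ops} {X Y Z : 𝒱.Obj} {p : ℕ}

lemma span_le_alg {j : ℕ} {c : W.H Z} (hc : c ∈ spanCycles W Z (j : ℕ)) : c ∈ algSpan W Z := by
  induction hc using Submodule.span_induction with
  | mem x hx =>
    obtain ⟨r, hr, w, hw, rfl⟩ := hx
    exact Submodule.subset_span (Set.mem_iUnion.2 ⟨r, ⟨w, hw, rfl⟩⟩)
  | zero => exact Submodule.zero_mem _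
  | add x y _ _ hx hy => exact Submodule.add_mem _ hx hy
  | smul a x _ hx => exact Submodule.smul_mem _ _ hx

lemma corr_gr_mem {c : W.H (X.prod X)} (hc : c ∈ W.gr (X.prod X) (2 * X.dim)) {i : ℕ}
    {x : W.H X} (hx : x ∈ W.gr X i) : W.corr c x ∈ W.gr X i := by
  have h1 := corr_mem_grZ hc hx
  have e : ((2 * X.dim : ℕ) : ℤ) + i - 2 * X.dim = (i : ℤ) := by push_cast; ring
  rwa [e, grZ_natCast] at h1

/-- The algebra of the algebraic correspondences of degree zero. -/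
noncomputable def AA (W : WeilCohomology.{u, v} ops) (X : 𝒱.Obj) :
    Subalgebra W.K (Module.End W.K (W.H X)) where
  carrier := {u | u ∈ (algSys W).Op X X ∧ ∀ i, ∀ x ∈ W.gr X i, u x ∈ W.gr X i}
  mul_mem' := fun ha hb => ⟨Sys.Op.comp ha.1 hb.1, fun i x hx => ha.2 i _ (hb.2 i x hx)⟩
  one_mem' := ⟨Sys.Op.id, fun i x hx => hx⟩
  add_mem' := fun ha hb => ⟨Submodule.add_mem _ ha.1 hb.1, fun i x hx =>
    Submodule.add_mem _ (ha.2 i x hx) (hb.2 i x hx)⟩
  zero_mem' := ⟨Submodule.zero_mem _, fun i x _ => Submodule.zero_mem _⟩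
  algebraMap_mem' := fun r => by
    rw [Algebra.algebraMap_eq_smul_one]
    exact ⟨Submodule.smul_mem _ _ Sys.Op.id, fun i x hx => Submodule.smul_mem _ _ hx⟩

lemma mem_AA {u : Module.End W.K (W.H X)} : u ∈ AA W X ↔ u ∈ (algSys W).Op X X ∧
    ∀ i, ∀ x ∈ W.gr X i, u x ∈ W.gr X i := Iff.rfl

lemma corr_mem_AA {c : W.H (X.prod X)} (hc : c ∈ spanCycles W (X.prod X) (X.dim : ℕ)) :
    W.corr c ∈ AA W X :=
  mem_AA.2 ⟨Sys.Op.corr (span_le_alg hc), fun _ _ hx => corr_gr_mem (Pool.Agent.H914.span_gr hc) hx⟩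

lemma exists_of_mem_AA {u : Module.End W.K (W.H X)} (hu : u ∈ AA W X) :
    ∃ c ∈ spanCycles W (X.prod X) (X.dim : ℕ), W.corr c = u := by
  obtain ⟨h1, h2⟩ := mem_AA.1 hu
  obtain ⟨c, hc, rfl⟩ := Sys.mem_Op.1 h1
  exact ⟨c, algSpan_gr hc (Pool.Agent.Q57.OP.corr_gr h2), rfl⟩

/-- The adjoint of an algebraic correspondence of degree zero. -/
lemma swap_span {c : W.H (X.prod X)} (hc : c ∈ spanCycles W (X.prod X) (X.dim : ℕ)) :
    W.map (swap X X) c ∈ spanCycles W (X.prod X) (X.dim : ℕ) :=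
  algSpan_gr ((algSys W).map _ (span_le_alg hc)) (W.map_mem _ (Pool.Agent.H914.span_gr hc))

variable (Φ : FrobSystem W p)

/-- `s` and `s'` are levels of `X` and `X × X` relative to the same large finite field. -/
structure Lev (X : 𝒱.Obj) (s s' : ℕ) : Prop where
  pos : 0 < s
  pos' : 0 < s'
  card_eq : card Φ (X.prod X) s' = card Φ X s
  frob_xp : ∀ x y : W.H X, frob Φ (X.prod X) s' (xp W x y) = xp W (frob Φ X s x) (frob Φ X s y)
  alg : ∀ c ∈ spanCycles W (X.prod X) (X.dim : ℕ),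
    frob Φ (X.prod X) s' c = ((card Φ X s : W.K) ^ X.dim) • c
  stable : genTate Φ (X.prod X) s' X.dim = genT Φ (X.prod X) X.dim

lemma exists_lev (X : 𝒱.Obj) : ∃ t, 0 < t ∧ ∀ s, 0 < s → t ∣ s → ∃ s', Lev Φ X s s' := by
  obtain ⟨A, B, B', hA, hB, hB', e1, e2, h1⟩ := exists_levels Φ X X
  have hBB : B' = B := Nat.eq_of_mul_eq_mul_left (Φ.e_pos X) (by rw [← e1, e2])
  subst hBB
  obtain ⟨t₁, ht₁, h2⟩ := exists_span_eig Φ (X.prod X) X.dim
  obtain ⟨t₂, ht₂, h3⟩ := genT_spec Φ (X.prod X) X.dim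
  refine ⟨B' * (t₁ * t₂), Nat.mul_pos hB (Nat.mul_pos ht₁ ht₂), ?_⟩
  rintro _ hs ⟨r, rfl⟩
  have hr : 0 < r := Nat.pos_of_mul_pos_left hs
  have hcard : card Φ (X.prod X) (A * (t₁ * t₂ * r)) = card Φ X (B' * (t₁ * t₂) * r) := by
    rw [mul_assoc B']
    exact Pool.Agent.TH132.P.card_eq e1 _
  refine ⟨A * (t₁ * t₂ * r), ⟨hs, Nat.mul_pos hA (Nat.mul_pos (Nat.mul_pos ht₁ ht₂) hr), hcard,
    ?_, ?_, ?_⟩⟩
  · intro x y
    have h4 := h1 (t₁ * t₂ * r) (x ⊗ₜ[W.K] y)
    rw [TensorProduct.map_tmul] at h4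
    rw [mul_assoc B']
    exact h4
  · intro c hc
    rw [← hcard]
    have h4 := span_eig_mul' Φ (h2 c hc) (A * (t₂ * r))
    rwa [show A * (t₂ * r) * t₁ = A * (t₁ * t₂ * r) by ring] at h4
  · exact h3 _ (Nat.mul_pos hA (Nat.mul_pos (Nat.mul_pos ht₁ ht₂) hr)) ⟨A * t₁ * r, by ring⟩

variable {Φ} {s s' : ℕ}

namespace Lev

/-- The Frobenius endomorphism and correspondences. -/
lemma corr_frob (L : Lev Φ X s s') (c : W.H (X.prod X)) (z : W.H X) :
    W.corr (frob Φ (X.prod X) s' c) (frob Φ X s z) =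
      ((card Φ X s : W.K) ^ X.dim) • frob Φ X s (W.corr c z) := by
  refine xp_induction (p := fun c => W.corr (frob Φ (X.prod X) s' c) (frob Φ X s z) =
      ((card Φ X s : W.K) ^ X.dim) • frob Φ X s (W.corr c z)) ?_ ?_ c
  · intro a b ha hb
    rw [map_add, corr_add, LinearMap.add_apply, ha, hb, corr_add, LinearMap.add_apply, map_add,
      smul_add]
  intro i j x _ y hy
  refine gr_induction (W.isInternal X) (p := fun z => W.corr (frob Φ (X.prod X) s' (xp W x y))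
    (frob Φ X s z) = ((card Φ X s : W.K) ^ X.dim) • frob Φ X s (W.corr (xp W x y) z)) ?_ ?_ z
  · intro l z hz
    have hy' : frob Φ X s y ∈ PH W X j := PH.map _ hy
    have hz' : frob Φ X s z ∈ PH W X l := PH.map _ (PH.of hz)
    rw [L.frob_xp, corr_xp _ hy' hz', corr_xp _ hy (PH.of hz), map_smul, smul_smul]
    congr 1
    have h1 := tr_iter Φ s (x * z)
    rw [map_mul, ← card_pow] at h1
    rw [frob_apply, frob_apply, h1]
    ring
  · intro a b ha hb
    rw [map_add, map_add, ha, hb, map_add, map_add, smul_add]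

lemma card_ne (_ : Lev Φ X s s') : ((card Φ X s : W.K) ^ X.dim) ≠ 0 :=
  pow_ne_zero _ (W534.card_ne Φ s)

/-- The algebraic correspondences of degree zero commute with the Frobenius endomorphism. -/
lemma comm (L : Lev Φ X s s') {u : Module.End W.K (W.H X)} (hu : u ∈ AA W X) (x : W.H X) :
    u (frob Φ X s x) = frob Φ X s (u x) := by
  obtain ⟨c, hc, rfl⟩ := exists_of_mem_AA hu
  have h1 := L.corr_frob c x
  rw [L.alg c hc, corr_smul, LinearMap.smul_apply] at h1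
  exact smul_right_injective _ L.card_ne h1

lemma frob_mem (_ : Lev Φ X s s') : frob Φ X s ∈ AA W X :=
  mem_AA.2 ⟨Sys.Op.map _, fun _ _ hx => W.map_mem _ hx⟩

lemma alg_le (L : Lev Φ X s s') :
    spanCycles W (X.prod X) (X.dim : ℕ) ≤ genTate Φ (X.prod X) s' X.dim := by
  intro c hc
  refine mem_genTate_of_eig Φ (Pool.Agent.H914.span_gr hc) ?_
  rw [L.alg c hc, L.card_eq]

/-- The operators given by the generalised Tate classes preserve the generalised eigenspaces. -/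
lemma tate_apply (L : Lev Φ X s s') {c : W.H (X.prod X)}
    (hc : c ∈ genTate Φ (X.prod X) s' X.dim) {i : ℕ} {μ : W.K} {x : W.H X}
    (hx : x ∈ VE Φ X s i μ) : W.corr c x ∈ VE Φ X s i μ := by
  refine ⟨?_, corr_gr_mem hc.2 hx.2⟩
  set Q : W.K := (card Φ X s : W.K) ^ X.dim with hQ
  have h1 : c ∈ (frob Φ (X.prod X) s').maxGenEigenspace Q := by
    have h2 := hc.1
    rw [L.card_eq] at h2
    exact h2
  have h2 := gen_bilin (f := frob Φ (X.prod X) s') (g := frob Φ X s) (h := Q • frob Φ X s)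
    (β := Y133.Half.corrL W X X) (fun a b => L.corr_frob a b) h1 hx.1
  change W.corr c x ∈ (frob Φ X s).maxGenEigenspace μ
  rw [Module.End.mem_maxGenEigenspace] at h2 ⊢
  obtain ⟨n, hn⟩ := h2
  refine ⟨n, ?_⟩
  rw [show Q • frob Φ X s - (Q * μ) • (1 : Module.End W.K (W.H X)) =
    Q • (frob Φ X s - μ • 1) by rw [smul_sub, smul_smul], smul_pow, LinearMap.smul_apply] at hn
  exact (smul_eq_zero.1 hn).resolve_left (pow_ne_zero _ L.card_ne)

lemma apply (L : Lev Φ X s s') {u : Module.End W.K (W.H X)} (hu : u ∈ AA W X) {i : ℕ}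
    {μ : W.K} {x : W.H X} (hx : x ∈ VE Φ X s i μ) : u x ∈ VE Φ X s i μ := by
  obtain ⟨c, hc, rfl⟩ := exists_of_mem_AA hu
  exact L.tate_apply (L.alg_le hc) hx

/-- External products of generalised eigenvectors. -/
lemma xp_mem (L : Lev Φ X s s') {i l : ℕ} {μ μ' : W.K} (hil : i + l = 2 * X.dim)
    (hμ : μ * μ' = (card Φ X s : W.K) ^ X.dim) {x y : W.H X} (hx : x ∈ VE Φ X s i μ)
    (hy : y ∈ VE Φ X s l μ') : xp W x y ∈ genTate Φ (X.prod X) s' X.dim := by
  refine ⟨?_, ?_⟩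
  · have h2 := gen_bilin (f := frob Φ X s) (g := frob Φ X s) (h := frob Φ (X.prod X) s')
      (β := LinearMap.mk₂ W.K (fun x y : W.H X => xp W x y) xp_add_left
        (fun c x y => xp_smul_left c x y) xp_add_right (fun c x y => xp_smul_right c x y))
      (fun a b => (L.frob_xp a b).symm) hx.1 hy.1
    rw [L.card_eq, ← hμ]
    exact h2
  · rw [← hil]
    exact W.mul_mem (W.map_mem _ hx.2) (W.map_mem _ hy.2)

end Lev

/-- Products of generalised eigenvectors. -/
lemma tr_mul_eq_zero {μ ν : W.K} (h : μ * ν ≠ (card Φ X s : W.K) ^ X.dim) {i j : ℕ} {x y : W.H X}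
    (hx : x ∈ VE Φ X s i μ) (hy : y ∈ VE Φ X s j ν) : W.tr X (x * y) = 0 := by
  set Q : W.K := (card Φ X s : W.K) ^ X.dim with hQ
  have h2 := gen_bilin (f := frob Φ X s) (g := frob Φ X s) (h := Q • (1 : Module.End W.K W.K))
    (β := trB W X) (fun a b => by
      have h1 := tr_iter Φ s (a * b)
      rw [map_mul, ← card_pow] at h1
      rw [trB_apply, frob_apply, frob_apply, h1]
      rfl) hx.1 hy.1
  rw [Module.End.mem_maxGenEigenspace] at h2
  obtain ⟨n, hn⟩ := h2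
  have e : Q • (1 : Module.End W.K W.K) - (μ * ν) • (1 : Module.End W.K W.K) =
      (Q - μ * ν) • (1 : Module.End W.K W.K) := (sub_smul _ _ _).symm
  rw [e, smul_pow, one_pow, LinearMap.smul_apply, Module.End.one_apply] at hn
  exact (smul_eq_zero.1 hn).resolve_left (pow_ne_zero _ (sub_ne_zero.2 (Ne.symm h)))

/-- Duality up to a sign. -/
lemma tr_comm_zero {i j : ℕ} {x y : W.H X} (hx : x ∈ W.gr X i) (hy : y ∈ W.gr X j)
    (h : W.tr X (x * y) = 0) : W.tr X (y * x) = 0 := by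
  rw [W.comm hy hx, map_smul, h, smul_zero]

end Pool.Agent.Q55.Gp
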