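import Pool.Agent.TH132.P.Defs
import Pool.Agent.H447R3.DegDefs

/-!
# Gaps for the defect of `X × X`: definitions
-/

open CategoryTheory AlgebraicGeometry

universe u v

namespace Pool.Agent.Q55.Gp

open Pool.Agent.H914 Pool.Agent.H914.VarClass Pool.Agent.H914.VarClass.Obj
  Pool.Agent.H914.WeilCohomology Pool.Agent.W534 Pool.Agent.H447 Pool.Agent.TH132.P

variable {k : Type u} [Field k] {𝒱 : VarClass k} {ops : CycleOps 𝒱}
  {W : WeilCohomology.{u, v} ops} {p : ℕ}

/-- The strong Tate conjecture for `Z` in codimension `j` (the generalised eigenspaces of the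
Frobenius endomorphisms in `H^(2 j)(Z)` for the eigenvalues `q ^ j` are spanned by classes of
cycles) and the equality of homological and numerical equivalence for the cycles of codimension `j`
on `Z`. -/
def Settled (Φ : FrobSystem W p) (Z : 𝒱.Obj) (j : ℕ) : Prop :=
  SemisimpleTateIn Φ Z j ∧ HomEqNumIn W Z j

/-- The multiplicity of `z` as an eigenvalue of the Frobenius endomorphism of `X` over the field
with `card Φ X s` elements on `H^i(X)`. -/
noncomputable def mult (Φ : FrobSystem W p) (σ : W.K →+* ℂ) (X : 𝒱.Obj) (s i : ℕ) (z : ℂ) : ℕ :=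
  (frobPoly Φ σ X s i).rootMultiplicity z

/-- Over all large finite fields, with `q` elements say, the Frobenius endomorphism has an
eigenvalue `z` on some `H^i(X)` of multiplicity `m ≥ 2` such that `2 (m - 1) ≤ δ`, and even
`4 (m - 1) ≤ δ` unless `i = dim X` and `z ^ 2 = q ^ (dim X)`. Moreover `z` is not `q ^ j` with
`i = 2 j` if the conjectures hold for `X` in codimension `j`. -/
def HasMultipleEigenvalue (Φ : FrobSystem W p) (σ : W.K →+* ℂ) (X : 𝒱.Obj) (δ : ℕ) : Prop :=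
  ∃ t, 0 < t ∧ ∀ s, 0 < s → t ∣ s → ∃ (i : ℕ) (z : ℂ), 2 ≤ mult Φ σ X s i z ∧
    2 * (mult Φ σ X s i z - 1) ≤ δ ∧
    (i ≠ X.dim ∨ z ^ 2 ≠ (card Φ X s : ℂ) ^ X.dim → 4 * (mult Φ σ X s i z - 1) ≤ δ) ∧
    ∀ j ≤ X.dim, Settled Φ X j → ¬ (i = 2 * j ∧ z = (card Φ X s : ℂ) ^ j)

/-- The formula of Tate in codimension `j` on `X` holds up to `e`, and `e = 0` if and only if the
strong Tate conjecture and the conjecture D hold in codimension `j`. If `e` is not zero, the order
`P` of the pole satisfies `2 ≤ P` and `2 (P - 1) ≤ δ`, and even `4 (P - 1) ≤ δ` if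
`j ≠ dim X / 2`. -/
def PoleBound (Φ : FrobSystem W p) (σ : W.K →+* ℂ) (X : 𝒱.Obj) (j δ : ℕ) : Prop :=
  ∃ e, PoleDefect Φ σ X j e ∧ (e = 0 ↔ Settled Φ X j) ∧
    (e ≠ 0 → 2 ≤ numRank ops X j + e ∧ 2 * (numRank ops X j + e - 1) ≤ δ ∧
      (2 * j ≠ X.dim → 4 * (numRank ops X j + e - 1) ≤ δ))

end Pool.Agent.Q55.Gp
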