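import Pool.Agent.Q55.Gp.Var
import Pool.Agent.Q55.Gp.Defs

/-!
# Gaps for the defect of `X × X`: the theorem
-/

set_option autoImplicit false

open CategoryTheory AlgebraicGeometry

universe u v

namespace Pool.Agent.Q55.Gp

open Module
open Pool.Agent.H914 Pool.Agent.H914.VarClass Pool.Agent.H914.VarClass.Obj
  Pool.Agent.H914.WeilCohomology Pool.Agent.W534 Pool.Agent.Y133.Half Pool.Agent.W552
  Pool.Agent.H281R3.HT Pool.Agent.TH132.P Pool.Agent.H447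

variable {k : Type u} [Field k] {𝒱 : VarClass k} {ops : CycleOps 𝒱}
  {W : WeilCohomology.{u, v} ops} {X Y Z : 𝒱.Obj} {p : ℕ} {Φ : FrobSystem W p} {s s' : ℕ}
  {σ : W.K →+* ℂ}

/-- Tate's theorem. -/
lemma settled_iff (hp : 1 < p) (hRH : RiemannHyp Φ σ Z) {j e : ℕ} (hj : j ≤ Z.dim)
    (h : PoleDefect Φ σ Z j e) : e = 0 ↔ Settled Φ Z j := by
  rw [← poleFormula_iff_of h]
  obtain ⟨l, hl⟩ := Nat.exists_eq_add_of_le hj
  constructor
  · intro h1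
    exact ⟨(semisimple_of_pole hp hRH hl.symm h1).1, ((pole_iff_tate hp hRH hj).1 h1).2⟩
  · rintro ⟨h1, h2⟩
    refine (pole_iff_tate hp hRH hj).2 ⟨fun c hc => ?_, h2⟩
    obtain ⟨s, hs, hc'⟩ := IsTate.mem Φ hc
    exact h1 s hs hc'

/-- The levels which are large for `X × X` and for `X`. -/
lemma exists_large (Φ : FrobSystem W p) (X : 𝒱.Obj) : ∃ t, 0 < t ∧ ∀ s, 0 < s → t ∣ s →
    (∃ s', Lev Φ X s s') ∧ ∀ j ≤ X.dim, genTate Φ X s j = genT Φ X j := by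
  obtain ⟨t, ht, h⟩ := exists_lev Φ X
  choose r hr hr' using fun j => genT_spec Φ X j
  refine ⟨t * ∏ j ∈ Finset.range (X.dim + 1), r j, Nat.mul_pos ht
    (Finset.prod_pos fun j _ => hr j), fun s hs hts => ⟨h s hs ((Nat.dvd_mul_right _ _).trans hts),
      fun j hj => ?_⟩⟩
  refine hr' j s hs (((Finset.dvd_prod_of_mem r ?_).trans (Nat.dvd_mul_left _ _)).trans hts)
  rw [Finset.mem_range]
  omega

theorem poleBound (hp : 1 < p) (hRH : ∀ Z : 𝒱.Obj, RiemannHyp Φ σ Z) {D : X.Cycles}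
    (hD : X.IsCyc 1 D) (he : X.V.degCycle (divPow ops D X.dim X.V.fundCycle) ≠ 0) {δ : ℕ}
    (h : PoleDefect Φ σ (X.prod X) X.dim δ) {j : ℕ} (hj : j ≤ X.dim) : PoleBound Φ σ X j δ := by
  have h1 := numRank_add_defect (Φ := Φ) X hj
  have h2 : PoleDefect Φ σ X j (defect Φ X j) := poleDefect_of hp (hRH _) hj h1.symm
  refine ⟨defect Φ X j, h2, settled_iff hp (hRH _) hj h2, fun h0 => ?_⟩
  obtain ⟨t, ht, h3⟩ := exists_large Φ X
  obtain ⟨⟨s', L⟩, hlev⟩ := h3 t ht dvd_rfl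
  obtain ⟨U, hU, hS, hU0, hU1⟩ := exists_stb hD he hlev hj h1.symm (Nat.pos_of_ne_zero h0)
  obtain ⟨h4, h5, h6⟩ := L.gap hp (hRH _) h hU hS hU0 hU1
  have h7 : finrank W.K (VE Φ X t (2 * j) ((card Φ X t : W.K) ^ j)) =
      numRank ops X j + defect Φ X j := by
    rw [h1]
    exact congrArg (fun S : Submodule W.K (W.H X) => finrank W.K S) (hlev j hj)
  rw [h7] at h4 h5 h6
  exact ⟨h4, h5, fun hj' => h6 (Or.inl hj')⟩

theorem hasMultiple [IsAlgClosed W.K] (hp : 1 < p) (hRH : ∀ Z : 𝒱.Obj, RiemannHyp Φ σ Z) {δ : ℕ}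
    (h : PoleDefect Φ σ (X.prod X) X.dim δ) (hδ : 0 < δ) : HasMultipleEigenvalue Φ σ X δ := by
  obtain ⟨t, ht, h3⟩ := exists_large Φ X
  refine ⟨t, ht, fun s hs hts => ?_⟩
  obtain ⟨⟨s', L⟩, -⟩ := h3 s hs hts
  obtain ⟨i, μ, hir, h4, h5, h6⟩ := L.exists_mult hp hRH h hδ
  refine ⟨i, σ μ, ?_, ?_, ?_, ?_⟩
  · rw [mult, mult_eq]; exact h4
  · rw [mult, mult_eq]; exact h5
  · intro hne
    rw [mult, mult_eq]
    refine h6 (hne.imp_right fun h7 h8 => h7 ?_)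
    rw [← map_pow, h8, map_pow, map_natCast]
  · rintro j hj hset ⟨rfl, hz⟩
    have h9 : μ = (card Φ X s : W.K) ^ j := by
      apply σ.injective
      rw [hz, map_pow, map_natCast]
    subst h9
    exact hir (irr_of_settled hj hset.1 hset.2 hs)

/-- **Gaps for the defect of `X × X`.** -/
theorem gaps [IsAlgClosed W.K] (hp : 1 < p) (hRH : ∀ Z : 𝒱.Obj, RiemannHyp Φ σ Z) {D : X.Cycles}
    (hD : X.IsCyc 1 D) (he : X.V.degCycle (divPow ops D X.dim X.V.fundCycle) ≠ 0) {δ : ℕ}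
    (h : PoleDefect Φ σ (X.prod X) X.dim δ) :
    δ ≠ 1 ∧ (δ = 0 ↔ Settled Φ (X.prod X) X.dim) ∧
    (δ ≠ 0 → HasMultipleEigenvalue Φ σ X δ) ∧
    (∀ j ≤ X.dim, PoleBound Φ σ X j δ) ∧
    (δ ≤ 1 → ∀ j ≤ X.dim, Settled Φ X j) ∧
    (δ ≤ 3 → ∀ j ≤ X.dim, 2 * j ≠ X.dim → Settled Φ X j) := by
  have hd : (X.prod X).dim = X.dim + X.dim := dim_prod _ _
  have h1 : ∀ j ≤ X.dim, PoleBound Φ σ X j δ := fun j hj => poleBound hp hRH hD he h hj
  refine ⟨?_, settled_iff hp (hRH _) (by omega) h, fun h0 =>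
    hasMultiple hp hRH h (Nat.pos_of_ne_zero h0), h1, ?_, ?_⟩
  · rintro rfl
    obtain ⟨t, ht, h2⟩ := hasMultiple hp hRH h one_pos
    obtain ⟨i, z, h3, h4, -⟩ := h2 t ht dvd_rfl
    omega
  · intro hδ j hj
    obtain ⟨e, h2, h3, h4⟩ := h1 j hj
    refine h3.1 ?_
    by_contra h0
    have h5 := h4 h0
    omega
  · intro hδ j hj hj'
    obtain ⟨e, h2, h3, h4⟩ := h1 j hj
    refine h3.1 ?_
    by_contra h0
    obtain ⟨h5, h6, h7⟩ := h4 h0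
    have h8 := h7 hj'
    omega

end Pool.Agent.Q55.Gp
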