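import Pool.Agent.Q55.Gp.Ineq
import Pool.Agent.W534.PoleD

/-!
# The case where all generalised eigenspaces are irreducible
-/

set_option autoImplicit false

open CategoryTheory AlgebraicGeometry Polynomial
open scoped TensorProduct

universe u v

namespace Pool.Agent.Q55.Gp

open Module
open Pool.Agent.H914 Pool.Agent.H914.VarClass Pool.Agent.H914.VarClass.Obj
  Pool.Agent.H914.WeilCohomology Pool.Agent.W534 Pool.Agent.Y133.Half Pool.Agent.W552
  Pool.Agent.H281R3.HT Pool.Agent.TH132.P
open Pool.Agent.W458.MF (hasEigenvalue_of_gen)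

variable {k : Type u} [Field k] {𝒱 : VarClass k} {ops : CycleOps 𝒱}
  {W : WeilCohomology.{u, v} ops} {X Y Z : 𝒱.Obj} {p : ℕ} {Φ : FrobSystem W p} {s s' : ℕ}
  {σ : W.K →+* ℂ}

/-! ## Multiplicities -/

/-- The multiplicity of an eigenvalue is the dimension of the generalised eigenspace. -/
lemma mult_eq (s i : ℕ) (μ : W.K) :
    (frobPoly Φ σ Z s i).rootMultiplicity (σ μ) = finrank W.K (VE Φ Z s i μ) := by
  rw [frobPoly_eq, ← eq_rootMultiplicity_map σ.injective, ← LinearMap.finrank_maxGenEigenspace_eq]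
  have h1 := Submodule.inf_genEigenspace (frob Φ Z s) (W.gr Z i) (k := ⊤) (μ := μ)
    (fun _ hx => W.map_mem _ hx)
  have h2 : VE Φ Z s i μ = (Module.End.genEigenspace (frobOn Φ Z s i) μ ⊤).map
      (W.gr Z i).subtype := by
    rw [VE, inf_comm]
    exact h1
  rw [h2]
  exact LinearEquiv.finrank_eq (Submodule.equivMapOfInjective _
    (Submodule.subtype_injective _) _)

/-- The generalised eigenspaces are not zero for roots of the characteristic polynomial. -/
lemma isRoot_of_ne {i : ℕ} {μ : W.K} (h : VE Φ Z s i μ ≠ ⊥) : (frobPoly Φ σ Z s i).IsRoot (σ μ) := by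
  have h1 : 0 < (frobPoly Φ σ Z s i).rootMultiplicity (σ μ) := by
    rw [mult_eq]
    by_contra h2
    exact h (Submodule.finrank_eq_zero.1 (by omega))
  have hne : frobPoly Φ σ Z s i ≠ 0 := by
    rw [frobPoly_eq]
    exact ((LinearMap.charpoly_monic _).map σ).ne_zero
  exact (rootMultiplicity_pos hne).1 h1

/-- The Riemann hypothesis: an eigenvalue determines the degree. -/
lemma degree_unique (hp : 1 < p) (hRH : RiemannHyp Φ σ Z) (hs : 0 < s) {i j : ℕ} {μ : W.K}
    (hi : VE Φ Z s i μ ≠ ⊥) (hj : VE Φ Z s j μ ≠ ⊥) : i = j := by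
  have hone : 1 < card Φ Z s := Nat.one_lt_pow (Nat.mul_pos (Φ.e_pos Z) hs).ne' hp
  have h1 := hRH s hs i _ (isRoot_of_ne hi)
  have h2 := hRH s hs j _ (isRoot_of_ne hj)
  rw [h1] at h2
  have h3 : card Φ Z s ^ i = card Φ Z s ^ j := by exact_mod_cast h2
  exact Nat.pow_right_injective hone h3

/-- An element without components is zero. -/
lemma eq_zero_of_proj {x : W.H Z} (h : ∀ i, H914.proj (W.isInternal Z) i x = 0) : x = 0 := by
  have h1 := sum_proj (W.isInternal Z) (N := 2 * Z.dim + 1)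
    (fun i hi => W.gr_eq_bot Z i (by omega))
  have h2 := congrArg (fun F => F x) h1
  simp only [LinearMap.sum_apply, h, Finset.sum_const_zero, Module.End.one_apply] at h2
  exact h2.symm

/-- The components of a generalised eigenvector. -/
lemma proj_gen {μ : W.K} {x : W.H Z} (hx : x ∈ (frob Φ Z s).maxGenEigenspace μ) (i : ℕ) :
    H914.proj (W.isInternal Z) i x ∈ VE Φ Z s i μ := by
  refine ⟨?_, proj_mem _ _ _⟩
  have hc : Commute (H914.proj (W.isInternal Z) i : Module.End W.K (W.H Z))
      (frob Φ Z s - μ • (1 : Module.End W.K (W.H Z))) := by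
    have h1 : Commute (H914.proj (W.isInternal Z) i : Module.End W.K (W.H Z)) (frob Φ Z s) := by
      apply gr_ext (W.isInternal Z)
      intro j y hy
      have hy' : frob Φ Z s y ∈ W.gr Z j := W.map_mem _ hy
      rw [Module.End.mul_apply, Module.End.mul_apply]
      by_cases h : j = i
      · subst h
        rw [proj_same _ hy', proj_same _ hy]
      · rw [proj_ne _ hy' h, proj_ne _ hy h, map_zero]
    exact h1.sub_right ((Commute.one_right _).smul_right _)
  change _ ∈ (frob Φ Z s).maxGenEigenspace μ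
  rw [Module.End.mem_maxGenEigenspace] at hx ⊢
  obtain ⟨n, hn⟩ := hx
  refine ⟨n, ?_⟩
  rw [← Module.End.mul_apply, ← (hc.pow_right n).eq, Module.End.mul_apply, hn, map_zero]

/-- The Riemann hypothesis: a generalised eigenspace is contained in one degree. -/
lemma exists_degree (hp : 1 < p) (hRH : RiemannHyp Φ σ Z) (hs : 0 < s) (μ : W.K) :
    ∃ i, (frob Φ Z s).maxGenEigenspace μ = VE Φ Z s i μ := by
  by_cases h0 : ∀ i, VE Φ Z s i μ = ⊥
  · refine ⟨0, ?_⟩
    rw [h0 0, eq_bot_iff]
    intro x hx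
    rw [Submodule.mem_bot]
    have h1 : ∀ i, H914.proj (W.isInternal Z) i x = 0 := by
      intro i
      have := proj_gen hx i
      rwa [h0 i, Submodule.mem_bot] at this
    exact eq_zero_of_proj h1
  · push Not at h0
    obtain ⟨i, hi⟩ := h0
    refine ⟨i, le_antisymm ?_ inf_le_left⟩
    intro x hx
    refine ⟨hx, ?_⟩
    have h1 : ∀ j, j ≠ i → H914.proj (W.isInternal Z) j x = 0 := by
      intro j hj
      have h2 := proj_gen hx j
      by_contra h3
      exact hj (degree_unique hp hRH hs (fun h => h3 (by rwa [h, Submodule.mem_bot] at h2)) hi)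
    have h4 : x - H914.proj (W.isInternal Z) i x = 0 := by
      apply eq_zero_of_proj
      intro j
      rw [map_sub]
      by_cases hj : j = i
      · subst hj
        rw [proj_same _ (proj_mem _ _ _), sub_self]
      · rw [h1 j hj, proj_ne _ (proj_mem _ _ _) (Ne.symm hj), sub_self]
    rw [sub_eq_zero.1 h4]
    exact proj_mem _ _ _

/-! ## Projectors and matrix algebras -/

lemma aeval_mem (L : Lev Φ X s s') (P : Polynomial W.K) : aeval (frob Φ X s) P ∈ AA W X :=
  (Algebra.adjoin_le (Set.singleton_subset_iff.2 L.frob_mem) :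
    Algebra.adjoin W.K {frob Φ X s} ≤ AA W X) (aeval_mem_adjoin_singleton W.K _)

/-- The generalised eigenspace has only trivial stable subspaces. -/
def Irr (Φ : FrobSystem W p) (X : 𝒱.Obj) (s i : ℕ) (μ : W.K) : Prop :=
  ∀ U ≤ VE Φ X s i μ, Stb U → U = ⊥ ∨ U = VE Φ X s i μ

variable [IsAlgClosed W.K]

/-- **Irreducible generalised eigenspaces**: all operators are algebraic. -/
theorem exists_algebraic (L : Lev Φ X s s') (hp : 1 < p) (hRH : RiemannHyp Φ σ X) {i : ℕ}
    {μ : W.K} (hirr : Irr Φ X s i μ) (hne : VE Φ X s i μ ≠ ⊥) {u : Module.End W.K (W.H X)}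
    (hu : ∀ x ∈ VE Φ X s i μ, u x ∈ VE Φ X s i μ) : ∃ a ∈ AA W X,
      (∀ x ∈ (frob Φ X s).maxGenEigenspace μ, a x = u x) ∧
      ∀ ν ≠ μ, ∀ x ∈ (frob Φ X s).maxGenEigenspace ν, a x = 0 := by
  obtain ⟨j, hj⟩ := exists_degree (Φ := Φ) (s := s) hp hRH L.pos μ
  have hji : j = i := by
    refine degree_unique (Φ := Φ) (s := s) (μ := μ) hp hRH L.pos ?_ hne
    rw [← hj]
    exact fun h => hne (eq_bot_iff.2 (inf_le_left.trans h.le))
  subst hji
  obtain ⟨P, hP1, hP2⟩ := exists_poly (frob Φ X s) μ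
  obtain ⟨a, ha, hau⟩ := burn (AA W X) (V := VE Φ X s j μ) (fun a ha x hx => L.apply ha hx)
    hirr hu
  refine ⟨a * aeval (frob Φ X s) P, (AA W X).mul_mem ha (aeval_mem L P), ?_, ?_⟩
  · intro x hx
    rw [Module.End.mul_apply, hP1 x hx]
    exact hau x (by rw [← hj]; exact hx)
  · intro ν hν x hx
    rw [Module.End.mul_apply, hP2 ν hν x hx, map_zero]

/-- **All generalised eigenspaces irreducible**: all generalised Tate classes are algebraic. -/
theorem tate_of_irr (L : Lev Φ X s s') (hp : 1 < p) (hRH : RiemannHyp Φ σ X)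
    (h : ∀ i μ, Irr Φ X s i μ) :
    genTate Φ (X.prod X) s' X.dim ≤ spanCycles W (X.prod X) (X.dim : ℕ) := by
  classical
  intro c hc
  have h1 : ∀ μ, ∃ a ∈ AA W X, (∀ x ∈ (frob Φ X s).maxGenEigenspace μ, a x = W.corr c x) ∧
      ∀ ν ≠ μ, ∀ x ∈ (frob Φ X s).maxGenEigenspace ν, a x = 0 := by
    intro μ
    obtain ⟨i, hi⟩ := exists_degree (Φ := Φ) (s := s) hp hRH L.pos μ
    by_cases h0 : VE Φ X s i μ = ⊥
    · refine ⟨0, (AA W X).zero_mem, fun x hx => ?_, fun _ _ _ _ => rfl⟩
      rw [hi, h0, Submodule.mem_bot] at hx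
      rw [hx, map_zero, map_zero]
    · exact exists_algebraic L hp hRH (h i μ) h0 fun x hx => L.tate_apply hc hx
  choose a ha ha1 ha2 using h1
  have hfin := Module.End.finite_hasEigenvalue (frob Φ X s)
  have hmem : ∑ μ ∈ hfin.toFinset, a μ ∈ AA W X := Subalgebra.sum_mem _ fun μ _ => ha μ
  have heq : ∑ μ ∈ hfin.toFinset, a μ = W.corr c := by
    apply LinearMap.ext
    intro x
    have hx : x ∈ ⨆ ν, (frob Φ X s).maxGenEigenspace ν := by
      rw [Module.End.iSup_maxGenEigenspace_eq_top]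
      trivial
    refine Submodule.iSup_induction _ (motive := fun x => (∑ μ ∈ hfin.toFinset, a μ) x =
      W.corr c x) hx ?_ ?_ ?_
    · intro ν x hx
      by_cases hν : (frob Φ X s).HasEigenvalue ν
      · rw [LinearMap.sum_apply, Finset.sum_eq_single ν]
        · exact ha1 ν x hx
        · intro μ _ hμ
          exact ha2 μ ν (Ne.symm hμ) x hx
        · intro h'
          exact absurd (hfin.mem_toFinset.2 hν) h'
      · have h0 : x = 0 := by
          by_contra h0
          exact hν (hasEigenvalue_of_gen hx h0)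
        rw [h0, map_zero, map_zero]
    · rw [map_zero, map_zero]
    · intro x y hx hy
      rw [map_add, map_add, hx, hy]
  rw [heq] at hmem
  obtain ⟨c', hc', h'⟩ := exists_of_mem_AA hmem
  have : c' = c := corr_bijective.1 h'
  rwa [this] at hc'

end Pool.Agent.Q55.Gp
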