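import Pool.Agent.Q55.Gp.Alg

/-!
# Stable subspaces and the defect
-/

set_option autoImplicit false

open CategoryTheory AlgebraicGeometry
open scoped TensorProduct

universe u v

namespace Pool.Agent.Q55.Gp

open Module
open Pool.Agent.H914 Pool.Agent.H914.VarClass Pool.Agent.H914.VarClass.Obj
  Pool.Agent.H914.WeilCohomology Pool.Agent.W534 Pool.Agent.Y133.Half Pool.Agent.W552
  Pool.Agent.H281R3.HT Pool.Agent.TH132.P

variable {k : Type u} [Field k] {𝒱 : VarClass k} {ops : CycleOps 𝒱}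
  {W : WeilCohomology.{u, v} ops} {X Y Z : 𝒱.Obj} {p : ℕ} {Φ : FrobSystem W p} {s s' : ℕ}

/-- The subspace is stable under all algebraic correspondences of degree zero. -/
def Stb (U : Submodule W.K (W.H X)) : Prop := ∀ u ∈ AA W X, ∀ y ∈ U, u y ∈ U

/-- The rank of the numerical form and orthogonal subspaces. -/
lemma Lev.rank_le (L : Lev Φ X s s') {N R : Submodule W.K (W.H (X.prod X))}
    (hN : N ≤ genTate Φ (X.prod X) s' X.dim) (hR : R ≤ genTate Φ (X.prod X) s' X.dim)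
    (hNA : ∀ x ∈ N, ∀ c ∈ spanCycles W (X.prod X) (X.dim : ℕ), W.tr _ (x * c) = 0)
    (hRA : ∀ x ∈ R, ∀ c ∈ spanCycles W (X.prod X) (X.dim : ℕ), W.tr _ (x * c) = 0)
    (hRN : ∀ x ∈ R, ∀ y ∈ N, W.tr _ (x * y) = 0) :
    kRank W (X.prod X) X.dim X.dim + finrank W.K N + finrank W.K R ≤
      finrank W.K (genTate Φ (X.prod X) s' X.dim) := by
  have h1 := Gp.rank_le (B := trB W (X.prod X)) (G := genTate Φ (X.prod X) s' X.dim)
    (A := spanCycles W (X.prod X) (X.dim : ℕ)) L.alg_le hN hR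
    (fun x hx h => genTate_nondeg Φ (by rw [dim_prod]) hx h) hNA hRA hRN
  exact h1

section

variable (L : Lev Φ X s s') {i l : ℕ} {μ μ' : W.K} {U : Submodule W.K (W.H X)}

/-- The orthogonality to the algebraic classes, first kind. -/
lemma orth₁ (hS : Stb U) {T : Submodule W.K (W.H X)} {z : W.H (X.prod X)}
    (hz : z ∈ XP (perp W T U) U) {c : W.H (X.prod X)}
    (hc : c ∈ spanCycles W (X.prod X) (X.dim : ℕ)) : W.tr _ (z * c) = 0 := by
  refine XP_orth (fun x hx y hy => ?_) hz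
  have hev : c ∈ PH W (X.prod X) 0 := PH.of' (by omega) (Pool.Agent.H914.span_gr hc)
  rw [← PH.even_comm hev, tr_mul_xp, tr_corr' hev]
  exact hx.2 _ (hS _ (corr_mem_AA (swap_span hc)) y hy)

/-- The orthogonality to the algebraic classes, second kind. -/
lemma orth₂ (hU : U ≤ W.gr X i) (hS : Stb U) {T : Submodule W.K (W.H X)} (hT : T ≤ W.gr X l)
    {z : W.H (X.prod X)} (hz : z ∈ XP U (perp W T U)) {c : W.H (X.prod X)}
    (hc : c ∈ spanCycles W (X.prod X) (X.dim : ℕ)) : W.tr _ (z * c) = 0 := by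
  refine XP_orth (fun y hy x hx => ?_) hz
  have hev : c ∈ PH W (X.prod X) 0 := PH.of' (by omega) (Pool.Agent.H914.span_gr hc)
  rw [← PH.even_comm hev, tr_mul_xp]
  have h1 := hS _ (corr_mem_AA hc) y hy
  exact tr_comm_zero (hT hx.1) (hU h1) (hx.2 _ h1)

/-- The two subspaces are orthogonal. -/
lemma orth₁₂ (hU : U ≤ W.gr X i) {T : Submodule W.K (W.H X)} (hT : T ≤ W.gr X l)
    {z z' : W.H (X.prod X)} (hz : z ∈ XP U (perp W T U)) (hz' : z' ∈ XP (perp W T U) U) :
    W.tr _ (z * z') = 0 := by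
  refine XP_orth (fun y hy x hx => XP_orth' (fun x' hx' y' hy' => ?_) hz') hz
  exact tr_xp_xp (hT hx.1) (hT hx'.1) (Or.inl (tr_comm_zero (hT hx'.1) (hU hy) (hx'.2 _ hy)))

lemma orth₂₁ (hU : U ≤ W.gr X i) {T : Submodule W.K (W.H X)}
    {z z' : W.H (X.prod X)} (hz : z ∈ XP U (perp W T U)) (hz' : z' ∈ XP (perp W T U) U) :
    W.tr _ (z' * z) = 0 := by
  refine XP_orth (fun x hx y hy => XP_orth' (fun y' hy' x' hx' => ?_) hz) hz'
  exact tr_xp_xp (hU hy) (hU hy') (Or.inl (hx.2 _ hy'))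

include L

lemma XP_le₁ (hil : i + l = 2 * X.dim) (hμ : μ * μ' = (card Φ X s : W.K) ^ X.dim)
    (hU : U ≤ VE Φ X s i μ) :
    XP (perp W (VE Φ X s l μ') U) U ≤ genTate Φ (X.prod X) s' X.dim :=
  XP_le fun _ hx _ hy => L.xp_mem (by omega) (by rw [mul_comm, hμ]) hx.1 (hU hy)

lemma XP_le₂ (hil : i + l = 2 * X.dim) (hμ : μ * μ' = (card Φ X s : W.K) ^ X.dim)
    (hU : U ≤ VE Φ X s i μ) :
    XP U (perp W (VE Φ X s l μ') U) ≤ genTate Φ (X.prod X) s' X.dim :=
  XP_le fun _ hy _ hx => L.xp_mem hil hμ (hU hy) hx.1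

/-- **A stable subspace gives a lower bound for the defect.** -/
theorem defect_ge (hil : i + l = 2 * X.dim) (hμ : μ * μ' = (card Φ X s : W.K) ^ X.dim)
    (hU : U ≤ VE Φ X s i μ) (hS : Stb U) :
    kRank W (X.prod X) X.dim X.dim +
      2 * (finrank W.K U * (finrank W.K (VE Φ X s i μ) - finrank W.K U)) ≤
      finrank W.K (genTate Φ (X.prod X) s' X.dim) := by
  have hUg : U ≤ W.gr X i := fun x hx => (hU hx).2
  have hTg : VE Φ X s l μ' ≤ W.gr X l := fun x hx => hx.2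
  have h1 := L.rank_le (XP_le₁ L hil hμ hU) (XP_le₂ L hil hμ hU)
    (fun x hx c hc => orth₁ hS hx hc) (fun x hx c hc => orth₂ hUg hS hTg hx hc)
    (fun x hx y hy => orth₁₂ hUg hTg hx hy)
  rw [finrank_XP, finrank_XP] at h1
  have h2 := finrank_perp (VE Φ X s l μ') U
  rw [← finrank_VE Φ hil hμ] at h2
  set a := finrank W.K (perp W (VE Φ X s l μ') U)
  set b := finrank W.K U
  set n := finrank W.K (VE Φ X s i μ)
  have h3 : b * (n - b) ≤ b * a := Nat.mul_le_mul_left _ (by omega)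
  have h4 : a * b = b * a := mul_comm _ _
  omega

/-- The twofold bound outside the self-dual part. -/
theorem defect_ge' (hil : i + l = 2 * X.dim) (hμ : μ * μ' = (card Φ X s : W.K) ^ X.dim)
    (hne : i ≠ l ∨ μ ≠ μ') (hU : U ≤ VE Φ X s i μ) (hS : Stb U) :
    kRank W (X.prod X) X.dim X.dim +
      4 * (finrank W.K U * (finrank W.K (VE Φ X s i μ) - finrank W.K U)) ≤
      finrank W.K (genTate Φ (X.prod X) s' X.dim) := by
  have hUg : U ≤ W.gr X i := fun x hx => (hU hx).2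
  have hTg : VE Φ X s l μ' ≤ W.gr X l := fun x hx => hx.2
  have hQ := L.card_ne
  -- the two eigenspaces are isotropic
  have hV : ∀ x ∈ VE Φ X s i μ, ∀ y ∈ VE Φ X s i μ, W.tr X (x * y) = 0 := by
    intro x hx y hy
    rcases hne with h | h
    · exact W.tr_eq_zero (W.mul_mem hx.2 hy.2) (by omega)
    · refine tr_mul_eq_zero (fun h0 => h ?_) hx hy
      rw [← h0] at hμ hQ
      exact (mul_left_cancel₀ (left_ne_zero_of_mul hQ) hμ).symm
  have hV' : ∀ x ∈ VE Φ X s l μ', ∀ y ∈ VE Φ X s l μ', W.tr X (x * y) = 0 := by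
    intro x hx y hy
    rcases hne with h | h
    · exact W.tr_eq_zero (W.mul_mem hx.2 hy.2) (by omega)
    · refine tr_mul_eq_zero (fun h0 => h ?_) hx hy
      rw [← h0] at hμ hQ
      exact mul_right_cancel₀ (left_ne_zero_of_mul hQ) hμ
  have hdis : ∀ x ∈ VE Φ X s i μ, x ∈ VE Φ X s l μ' → x = 0 := by
    intro x hx hx'
    exact VE_nondeg Φ hil hμ hx fun y hy => hV' x hx' y hy
  set P := perp W (VE Φ X s l μ') U with hP
  set N := XP P U with hN
  set R := XP U P with hR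
  have hNA : ∀ x ∈ N, ∀ c ∈ spanCycles W (X.prod X) (X.dim : ℕ), W.tr _ (x * c) = 0 :=
    fun x hx c hc => orth₁ hS hx hc
  have hRA : ∀ x ∈ R, ∀ c ∈ spanCycles W (X.prod X) (X.dim : ℕ), W.tr _ (x * c) = 0 :=
    fun x hx c hc => orth₂ hUg hS hTg hx hc
  have hMA : ∀ x ∈ N ⊔ R, ∀ c ∈ spanCycles W (X.prod X) (X.dim : ℕ), W.tr _ (x * c) = 0 := by
    intro x hx c hc
    obtain ⟨a, ha, b, hb, rfl⟩ := Submodule.mem_sup.1 hx
    rw [add_mul, map_add, hNA a ha c hc, hRA b hb c hc, add_zero]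
  have hNN : ∀ x ∈ N, ∀ y ∈ N, W.tr _ (x * y) = 0 := fun z hz z' hz' =>
    XP_orth (S := P) (T := U) (fun x hx y hy => XP_orth' (S := P) (T := U) (fun x' hx' y' hy' =>
      tr_xp_xp (hUg hy) (hTg hx'.1) (Or.inr (hV _ (hU hy) _ (hU hy')))) hz') hz
  have hRR : ∀ x ∈ R, ∀ y ∈ R, W.tr _ (x * y) = 0 := fun z hz z' hz' =>
    XP_orth (S := U) (T := P) (fun x hx y hy => XP_orth' (S := U) (T := P) (fun x' hx' y' hy' =>
      tr_xp_xp (hTg hy.1) (hUg hx') (Or.inl (hV _ (hU hx) _ (hU hx')))) hz') hz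
  have hMM : ∀ x ∈ N ⊔ R, ∀ y ∈ N ⊔ R, W.tr _ (x * y) = 0 := by
    intro x hx y hy
    obtain ⟨a, ha, b, hb, rfl⟩ := Submodule.mem_sup.1 hx
    obtain ⟨a', ha', b', hb', rfl⟩ := Submodule.mem_sup.1 hy
    rw [add_mul, mul_add, mul_add, map_add, map_add, map_add, hNN a ha a' ha', hRR b hb b' hb',
      orth₂₁ hUg hb' ha, orth₁₂ hUg hTg hb ha', add_zero, add_zero]
  have hle : N ⊔ R ≤ genTate Φ (X.prod X) s' X.dim :=
    sup_le (XP_le₁ L hil hμ hU) (XP_le₂ L hil hμ hU)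
  have h1 := L.rank_le hle hle hMA hMA hMM
  -- the sum is direct
  have himN : ∀ z ∈ N, ∀ x, W.corr z x ∈ VE Φ X s i μ := by
    intro z hz
    refine XP_ind (q := fun z => ∀ x, W.corr z x ∈ VE Φ X s i μ) ?_ ?_ ?_ hz
    · intro x; rw [corr_zero]; exact Submodule.zero_mem _
    · intro a b ha hb x; rw [corr_add]; exact Submodule.add_mem _ (ha x) (hb x)
    · intro a ha b hb x
      refine gr_induction (W.isInternal X) (p := fun x => W.corr (xp W a b) x ∈ VE Φ X s i μ)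
        ?_ ?_ x
      · intro j x hx
        rw [corr_xp a (PH.of (hUg hb)) (PH.of hx)]
        exact Submodule.smul_mem _ _ (hU hb)
      · intro x y hx hy; rw [map_add]; exact Submodule.add_mem _ hx hy
  have himR : ∀ z ∈ R, ∀ x, W.corr z x ∈ VE Φ X s l μ' := by
    intro z hz
    refine XP_ind (q := fun z => ∀ x, W.corr z x ∈ VE Φ X s l μ') ?_ ?_ ?_ hz
    · intro x; rw [corr_zero]; exact Submodule.zero_mem _
    · intro a b ha hb x; rw [corr_add]; exact Submodule.add_mem _ (ha x) (hb x)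
    · intro a ha b hb x
      refine gr_induction (W.isInternal X) (p := fun x => W.corr (xp W a b) x ∈ VE Φ X s l μ')
        ?_ ?_ x
      · intro j x hx
        rw [corr_xp a (PH.of (hTg hb.1)) (PH.of hx)]
        exact Submodule.smul_mem _ _ hb.1
      · intro x y hx hy; rw [map_add]; exact Submodule.add_mem _ hx hy
  have hNR : N ⊓ R = ⊥ := by
    rw [eq_bot_iff]
    rintro z ⟨hz, hz'⟩
    rw [Submodule.mem_bot]
    apply corr_inj
    apply LinearMap.ext
    intro x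
    exact hdis _ (himN z hz x) (himR z hz' x)
  have h5 := Submodule.finrank_sup_add_finrank_inf_eq N R
  rw [hNR, finrank_bot, hN, hR, finrank_XP, finrank_XP] at h5
  rw [← hN, ← hR] at h5
  have h2 := finrank_perp (VE Φ X s l μ') U
  rw [← finrank_VE Φ hil hμ] at h2
  set a := finrank W.K P
  set b := finrank W.K U
  set n := finrank W.K (VE Φ X s i μ)
  have h3 : b * (n - b) ≤ b * a := Nat.mul_le_mul_left _ (by omega)
  have h4 : a * b = b * a := mul_comm _ _
  omega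

end

end Pool.Agent.Q55.Gp
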