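import Mathlib

/-!
# Jordan types: definitions
-/

namespace Pool.Agent.Q55.Gp

variable {K V : Type*} [Field K] [AddCommGroup V] [Module K V]

/-- The kernel of `(f - μ) ^ j` on the subspace `S`. -/
noncomputable def kerOn (f : Module.End K V) (S : Submodule K V) (μ : K) (j : ℕ) :
    Submodule K V :=
  LinearMap.ker ((f - μ • (1 : Module.End K V)) ^ j) ⊓ S

/-- The generalised eigenspace of `f` for `μ`, intersected with `S`. -/
noncomputable def genOn (f : Module.End K V) (S : Submodule K V) (μ : K) : Submodule K V :=
  f.maxGenEigenspace μ ⊓ S

/-- The number of the Jordan blocks of size `j + 1` of `f` on the invariant subspace `S` for the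
eigenvalue `μ`: the number of the blocks of size at least `j` is the dimension of the kernel of
`(f - μ) ^ j` modulo the kernel of `(f - μ) ^ (j - 1)`. -/
noncomputable def blocksOn (f : Module.End K V) (S : Submodule K V) (μ : K) (j : ℕ) : ℕ :=
  (Module.finrank K (kerOn f S μ (j + 1)) - Module.finrank K (kerOn f S μ j)) -
    (Module.finrank K (kerOn f S μ (j + 2)) - Module.finrank K (kerOn f S μ (j + 1)))

/-- The multiplicity of the eigenvalue `μ` of `f` on the invariant subspace `S`. -/
noncomputable def multOn (f : Module.End K V) (S : Submodule K V) (μ : K) : ℕ :=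
  Module.finrank K (genOn f S μ)

/-- There is a Jordan block of size at least two of `f` on `S` for the eigenvalue `μ`: a
generalised eigenvector in `S` which is not an eigenvector. -/
def NotDiagOn (f : Module.End K V) (S : Submodule K V) (μ : K) : Prop :=
  ∃ x ∈ genOn f S μ, f x ≠ μ • x

/-- The sum of the squares of the numbers of Jordan blocks of each size of `f` on `S` for the
eigenvalue `μ`. -/
noncomputable def sqBlocksOn (f : Module.End K V) (S : Submodule K V) (μ : K) : ℕ :=
  ∑ j ∈ Finset.range (Module.finrank K V), blocksOn f S μ j ^ 2

open Classical in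
/-- The eigenvalues of `f`. -/
noncomputable def eigOf [Module.Finite K V] (f : Module.End K V) : Finset K :=
  (LinearMap.charpoly f).roots.toFinset

/-- The subspace `S` is spanned by eigenvectors of `f`. -/
def DiagOn (f : Module.End K V) (S : Submodule K V) : Prop :=
  S ≤ ⨆ μ, f.eigenspace μ

end Pool.Agent.Q55.Gp
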