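import Pool.Agent.TH132.P.Defs
import Pool.Agent.W534.PoleB
import Pool.Agent.Q55.Gp.JLin

/-!
# The Jordan type of Frobenius: definitions
-/

open CategoryTheory AlgebraicGeometry

universe u v

namespace Pool.Agent.Q55.Gp

open Pool.Agent.H914 Pool.Agent.H914.VarClass Pool.Agent.H914.VarClass.Obj
  Pool.Agent.H914.WeilCohomology Pool.Agent.W534 Pool.Agent.TH132.P

variable {k : Type u} [Field k] {𝒱 : VarClass k} {ops : CycleOps 𝒱}
  {W : WeilCohomology.{u, v} ops} {p : ℕ}

/-- The eigenvalues of the Frobenius endomorphism of `X`, over the field with `card Φ X s`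
elements, on `H(X)`. -/
noncomputable def eigs (Φ : FrobSystem W p) (X : 𝒱.Obj) (s : ℕ) : Finset W.K :=
  eigOf (frob Φ X s)

/-- The multiplicity of the eigenvalue `μ` of the Frobenius endomorphism on `H^i(X)`. -/
noncomputable def multK (Φ : FrobSystem W p) (X : 𝒱.Obj) (s i : ℕ) (μ : W.K) : ℕ :=
  multOn (frob Φ X s) (W.gr X i) μ

/-- The sum of the squares of the numbers of Jordan blocks of each size of the Frobenius
endomorphism on `H^i(X)` for the eigenvalue `μ`. -/
noncomputable def sqBlocks (Φ : FrobSystem W p) (X : 𝒱.Obj) (s i : ℕ) (μ : W.K) : ℕ :=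
  sqBlocksOn (frob Φ X s) (W.gr X i) μ

/-- The Frobenius endomorphism has a Jordan block of size at least two on `H^i(X)` for the
eigenvalue `μ`. -/
def NotDiagonal (Φ : FrobSystem W p) (X : 𝒱.Obj) (s i : ℕ) (μ : W.K) : Prop :=
  NotDiagOn (frob Φ X s) (W.gr X i) μ

/-- The sum of the squares of the numbers of Jordan blocks of each size, over all degrees and all
eigenvalues. -/
noncomputable def totalSq (Φ : FrobSystem W p) (X : 𝒱.Obj) (s : ℕ) : ℕ :=
  ∑ i ∈ Finset.range (2 * X.dim + 1), ∑ μ ∈ eigs Φ X s, sqBlocks Φ X s i μ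

/-- The sum over all degrees and all eigenvalues of the differences of the square of the
multiplicity and of the sum of the squares of the numbers of Jordan blocks of each size. -/
noncomputable def totalDefect (Φ : FrobSystem W p) (X : 𝒱.Obj) (s : ℕ) : ℕ :=
  ∑ i ∈ Finset.range (2 * X.dim + 1), ∑ μ ∈ eigs Φ X s,
    (multK Φ X s i μ ^ 2 - sqBlocks Φ X s i μ)

/-- If the Frobenius endomorphism has a Jordan block of size at least two on `H^i(X)` for the
eigenvalue `μ` of multiplicity `m` then `4 m ≤ δ + 5`, and even `8 m ≤ δ + 10` unless `i = dim X`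
and `μ ^ 2 = q ^ (dim X)`. -/
def BlockBound (Φ : FrobSystem W p) (X : 𝒱.Obj) (s δ : ℕ) : Prop :=
  ∀ i μ, NotDiagonal Φ X s i μ → 2 ≤ multK Φ X s i μ ∧ 4 * multK Φ X s i μ ≤ δ + 5 ∧
    (i ≠ X.dim ∨ μ ^ 2 ≠ (card Φ X s : W.K) ^ X.dim → 8 * multK Φ X s i μ ≤ δ + 10)

/-- Over every finite field `H^i(X)` is spanned by eigenvectors of the Frobenius endomorphism. -/
def Diagonalisable (Φ : FrobSystem W p) (X : 𝒱.Obj) (i : ℕ) : Prop :=
  ∀ s, 0 < s → DiagOn (frob Φ X s) (W.gr X i)

end Pool.Agent.Q55.Gp
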