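import Pool.Agent.Q55.Gp.JSum

/-!
# The Jordan type of Frobenius and the defect of `X × X`: the theorem
-/

set_option autoImplicit false
set_option linter.unusedSectionVars false

open CategoryTheory AlgebraicGeometry

universe u v

namespace Pool.Agent.Q55.Gp

open Module
open Pool.Agent.H914 Pool.Agent.H914.VarClass Pool.Agent.H914.VarClass.Obj
  Pool.Agent.H914.WeilCohomology Pool.Agent.W534 Pool.Agent.Y133.Half Pool.Agent.W552
  Pool.Agent.H281R3.HT Pool.Agent.TH132.P Pool.Agent.H447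
open Pool.Agent.W458.MF (hasEigenvalue_of_gen)

variable {k : Type u} [Field k] {𝒱 : VarClass k} {ops : CycleOps 𝒱}
  {W : WeilCohomology.{u, v} ops} {X Y Z : 𝒱.Obj} {p : ℕ} {Φ : FrobSystem W p} {s s' : ℕ}
  {σ : W.K →+* ℂ}

lemma cc_eq (s i : ℕ) (μ : W.K) (j : ℕ) :
    cc Φ X s i μ j = blocksOn (frob Φ X s) (W.gr X i) μ j := by
  have h1 : _ + finrank W.K (kerOn (frob Φ X s) (W.gr X i) μ j) =
      finrank W.K (kerOn (frob Φ X s) (W.gr X i) μ (j + 1)) :=
    finrank_KN (Φ := Φ) (X := X) s i μ j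
  have h2 : _ + finrank W.K (kerOn (frob Φ X s) (W.gr X i) μ (j + 1)) =
      finrank W.K (kerOn (frob Φ X s) (W.gr X i) μ (j + 2)) :=
    finrank_KN (Φ := Φ) (X := X) s i μ (j + 1)
  rw [blocksOn, cc, cN, ← h1, Nat.add_sub_cancel, h1, ← h2, Nat.add_sub_cancel]

lemma sum_eq (s i : ℕ) (μ : W.K) :
    ∑ j ∈ Finset.range (finrank W.K (W.H X)), cc Φ X s i μ j ^ 2 = sqBlocks Φ X s i μ :=
  Finset.sum_congr rfl fun j _ => by rw [cc_eq]

lemma Nm_apply (s : ℕ) (μ : W.K) (x : W.H X) : Nm Φ X s μ x = frob Φ X s x - μ • x := rfl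

/-- Duality. -/
lemma dual_diag {i l : ℕ} {μ μ' : W.K} (hil : i + l = 2 * X.dim)
    (hμ : μ * μ' = (card Φ X s : W.K) ^ X.dim) (h : ¬ NotDiagonal Φ X s l μ') :
    ¬ NotDiagonal Φ X s i μ := by
  rintro ⟨x, hx, hne⟩
  apply hne
  rw [← sub_eq_zero, ← Nm_apply]
  have hQ : (card Φ X s : W.K) ^ X.dim ≠ 0 := pow_ne_zero _ (W534.card_ne Φ s)
  have hμ' : μ' ≠ 0 := by
    rintro rfl
    rw [mul_zero] at hμ
    exact hQ hμ.symm
  refine VE_nondeg Φ hil hμ (VE_stable s i μ x hx) fun y hy => ?_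
  have hgy : frob Φ X s y = μ' • y := by
    by_contra h1
    exact h ⟨y, hy, h1⟩
  have h1 := tr_iter Φ s (x * y)
  rw [map_mul, ← card_pow, ← hμ] at h1
  have h2 : W.tr X (frob Φ X s x * (μ' • y)) = μ * μ' * W.tr X (x * y) := by
    rw [← hgy]
    exact h1
  rw [mul_smul_comm, map_smul, smul_eq_mul] at h2
  have h3 : W.tr X (frob Φ X s x * y) = μ * W.tr X (x * y) := by
    apply mul_left_cancel₀ hμ'
    rw [h2]
    ring
  rw [Nm_apply, sub_mul, map_sub, h3, smul_mul_assoc, map_smul, smul_eq_mul, sub_self]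

section

variable [IsAlgClosed W.K]

/-- The bound if Frobenius is not diagonalisable. -/
theorem Lev.not_diag_le (L : Lev Φ X s s') (hp : 1 < p) (hRH : ∀ Z : 𝒱.Obj, RiemannHyp Φ σ Z)
    {δ : ℕ} (h : PoleDefect Φ σ (X.prod X) X.dim δ) {i : ℕ} {μ : W.K}
    (hn : NotDiagonal Φ X s i μ) :
    2 ≤ multK Φ X s i μ ∧ 4 * multK Φ X s i μ ≤ δ + 5 ∧
      (i ≠ X.dim ∨ μ ^ 2 ≠ (card Φ X s : W.K) ^ X.dim → 8 * multK Φ X s i μ ≤ δ + 10) := by
  set f : ℕ → W.K → ℕ := fun i μ => finrank W.K (VE Φ X s i μ) ^ 2 -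
        ∑ j ∈ Finset.range (finrank W.K (W.H X)), cc Φ X s i μ j ^ 2 with hf
  have hsum := L.defect_ge hp hRH h
  have hbot : ∀ {i μ}, NotDiagonal Φ X s i μ → VE Φ X s i μ ≠ ⊥ := by
    rintro i μ ⟨x, hx, hne⟩ h0
    have hx' : x ∈ VE Φ X s i μ := hx
    rw [h0, Submodule.mem_bot] at hx'
    apply hne
    rw [hx', map_zero, smul_zero]
  have hfi : ∀ {i μ}, NotDiagonal Φ X s i μ → 2 ≤ finrank W.K (VE Φ X s i μ) ∧
      4 * finrank W.K (VE Φ X s i μ) ≤ f i μ + 5 := by
    rintro i μ ⟨x, hx, hne⟩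
    have h1 := not_diag (Φ := Φ) (X := X) (s := s) hx (by
      rw [Nm_apply]
      exact fun h0 => hne (sub_eq_zero.1 h0))
    refine ⟨h1.1, ?_⟩
    simp only [hf]
    omega
  have hmem : ∀ {i μ}, NotDiagonal Φ X s i μ → i ∈ Finset.range (2 * X.dim + 1) ∧
      μ ∈ eigs Φ X s := by
    intro i μ h1
    refine ⟨?_, ?_⟩
    · rw [Finset.mem_range]
      have := (VE_ne (hbot h1)).2
      omega
    · by_contra h2
      exact hbot h1 (VE_bot h2)
  obtain ⟨hμ0, hi⟩ := VE_ne (hbot hn)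
  obtain ⟨l, hl⟩ := Nat.exists_eq_add_of_le hi
  set μ' : W.K := (card Φ X s : W.K) ^ X.dim * μ⁻¹ with hμ'
  have hμ : μ * μ' = (card Φ X s : W.K) ^ X.dim := by
    rw [hμ', mul_left_comm, mul_inv_cancel₀ hμ0, mul_one]
  have hn' : NotDiagonal Φ X s l μ' := by
    by_contra h1
    exact dual_diag hl.symm hμ h1 hn
  have hm : finrank W.K (VE Φ X s l μ') = finrank W.K (VE Φ X s i μ) :=
    (finrank_VE Φ hl.symm hμ).symm
  have h1 := hfi hn
  have h2 := hfi hn'
  rw [hm] at h2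
  have hone : f i μ ≤ δ := by
    refine le_trans ?_ hsum
    refine le_trans ?_ (Finset.single_le_sum (f := fun i => ∑ μ ∈ eigs Φ X s, f i μ)
      (fun _ _ => Nat.zero_le _) (hmem hn).1)
    exact Finset.single_le_sum (f := fun μ => f i μ) (fun _ _ => Nat.zero_le _) (hmem hn).2
  change 2 ≤ finrank W.K (VE Φ X s i μ) ∧ 4 * finrank W.K (VE Φ X s i μ) ≤ δ + 5 ∧
    (_ → 8 * finrank W.K (VE Φ X s i μ) ≤ δ + 10)
  refine ⟨h1.1, by omega, fun hne => ?_⟩
  have hne' : (i, μ) ≠ (l, μ') := by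
    intro h3
    obtain ⟨h4, h5⟩ := Prod.mk.inj h3
    rcases hne with h6 | h6
    · omega
    · apply h6
      rw [pow_two]
      nth_rewrite 2 [h5]
      exact hμ
  have htwo : f i μ + f l μ' ≤ δ := by
    refine le_trans ?_ hsum
    rw [← Finset.sum_product' (f := f)]
    classical
    have h3 : ({(i, μ), (l, μ')} : Finset (ℕ × W.K)) ⊆
        Finset.range (2 * X.dim + 1) ×ˢ eigs Φ X s := by
      intro x hx
      rw [Finset.mem_insert, Finset.mem_singleton] at hx
      rcases hx with rfl | rfl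
      · exact Finset.mem_product.2 (hmem hn)
      · exact Finset.mem_product.2 (hmem hn')
    have h4 := Finset.sum_le_sum_of_subset (f := fun x : ℕ × W.K => f x.1 x.2) h3
    rw [Finset.sum_pair hne'] at h4
    exact h4
  omega

/-- Diagonalisability over a large finite field implies diagonalisability. -/
lemma diag_of_large {i : ℕ} {r : ℕ} (hr : 0 < r)
    (h : ∀ μ, ¬ NotDiagonal Φ X (s * r) i μ) (μ : W.K) : ¬ NotDiagonal Φ X s i μ := by
  rintro ⟨x, hx, hne⟩
  have hx' : x ∈ VE Φ X s i μ := hx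
  have hμ0 : μ ≠ 0 := by
    refine (VE_ne (Φ := Φ) (X := X) (s := s) (i := i) (μ := μ) fun h0 => ?_).1
    rw [h0, Submodule.mem_bot] at hx'
    exact hne (by rw [hx', map_zero, smul_zero])
  -- the eigenvectors of the power
  have key : ∀ y ∈ VE Φ X s i μ, (frob Φ X s ^ r) y = μ ^ r • y := by
    intro y hy
    have h1 : y ∈ VE Φ X (s * r) i (μ ^ r) := by
      refine ⟨?_, hy.2⟩
      have h2 := gen_mono (frob Φ X s) μ r hy.1
      rw [← frob_mul_eq] at h2
      exact h2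
    by_contra h2
    apply h (μ ^ r)
    refine ⟨y, h1, ?_⟩
    rw [frob_mul_eq]
    exact h2
  -- reduce to nilpotency of order two
  have key2 : ∀ j : ℕ, ∀ y ∈ VE Φ X s i μ, (Nm Φ X s μ ^ (j + 1)) y = 0 → Nm Φ X s μ y = 0 := by
    intro j
    induction j with
    | zero => intro y _ hy; simpa using hy
    | succ j ih =>
      intro y hy hy0
      have h3 : Nm Φ X s μ (Nm Φ X s μ y) = 0 := by
        refine ih _ (VE_stable s i μ y hy) ?_
        rw [← Module.End.mul_apply, ← pow_succ]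
        exact hy0
      have hgy : frob Φ X s y = μ • y + Nm Φ X s μ y := by rw [Nm_apply]; abel
      have hgw : frob Φ X s (Nm Φ X s μ y) = μ • Nm Φ X s μ y := by
        have h4 := h3
        rw [Nm_apply] at h4
        exact sub_eq_zero.1 h4
      have hpow : ∀ m : ℕ, (frob Φ X s ^ m) y = μ ^ m • y +
          ((m : W.K) * μ ^ (m - 1)) • Nm Φ X s μ y := by
        intro m
        induction m with
        | zero => simp
        | succ m ihm =>
          rw [pow_succ', Module.End.mul_apply, ihm, map_add, map_smul, map_smul, hgy, hgw,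
            smul_add, smul_smul, smul_smul, add_assoc, ← add_smul, Nat.add_sub_cancel, pow_succ]
          congr 2
          rcases Nat.eq_zero_or_pos m with rfl | hm
          · simp
          · obtain ⟨m', rfl⟩ := Nat.exists_eq_add_of_le' hm
            push_cast
            ring
      have h5 := key y hy
      rw [hpow r, add_eq_left] at h5
      refine (smul_eq_zero.1 h5).resolve_left (mul_ne_zero ?_ (pow_ne_zero _ hμ0))
      exact Nat.cast_ne_zero.2 hr.ne'
  apply hne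
  have h1 := VE_nil s i μ x hx'
  have h2 := key2 (finrank W.K (W.H X)) x hx' (by
    rw [pow_succ', Module.End.mul_apply, h1, map_zero])
  rw [Nm_apply] at h2
  exact sub_eq_zero.1 h2

/-- The decomposition into eigenvectors. -/
lemma diagonalisable_of {i : ℕ} (h : ∀ s, 0 < s → ∀ μ, ¬ NotDiagonal Φ X s i μ) :
    Diagonalisable Φ X i := by
  intro s hs x hx
  have hx1 : x ∈ ⨆ ν, (frob Φ X s).maxGenEigenspace ν := by
    rw [Module.End.iSup_maxGenEigenspace_eq_top]
    trivial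
  have h1 : H914.proj (W.isInternal X) i x ∈ ⨆ μ, (frob Φ X s).eigenspace μ := by
    refine Submodule.iSup_induction _ (motive := fun x => H914.proj (W.isInternal X) i x ∈
      ⨆ μ, (frob Φ X s).eigenspace μ) hx1 ?_ ?_ ?_
    · intro μ y hy
      have h2 := proj_gen hy i
      refine Submodule.mem_iSup_of_mem μ ?_
      rw [Module.End.mem_eigenspace_iff]
      by_contra h3
      exact h s hs μ ⟨_, h2, h3⟩
    · rw [map_zero]
      exact Submodule.zero_mem _
    · intro y z hy hz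
      rw [map_add]
      exact Submodule.add_mem _ hy hz
  rwa [proj_same _ hx] at h1

/-- **The Jordan type of Frobenius and the defect.** -/
theorem jordan_type (hp : 1 < p) (hRH : ∀ Z : 𝒱.Obj, RiemannHyp Φ σ Z) {δ : ℕ}
    (h : PoleDefect Φ σ (X.prod X) X.dim δ) :
    (∃ t, 0 < t ∧ ∀ s, 0 < s → t ∣ s → numRank ops (X.prod X) X.dim ≤ totalSq Φ X s ∧
      totalDefect Φ X s ≤ δ ∧ BlockBound Φ X s δ) ∧
    (δ ≤ 2 → ∀ i, Diagonalisable Φ X i) ∧
    (δ ≤ 5 → ∀ i, i ≠ X.dim → Diagonalisable Φ X i) := by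
  have hd : (X.prod X).dim = X.dim + X.dim := dim_prod _ _
  obtain ⟨t, ht, hlev⟩ := exists_lev Φ X
  refine ⟨⟨t, ht, fun s hs hts => ?_⟩, ?_, ?_⟩
  · obtain ⟨s', L⟩ := hlev s hs hts
    refine ⟨?_, ?_, fun i μ hn => L.not_diag_le hp hRH h hn⟩
    · rw [numRank_eq (W := W) (by omega), show (X.prod X).dim - X.dim = X.dim by omega]
      refine (L.kRank_le hp (hRH X)).trans (le_of_eq ?_)
      exact Finset.sum_congr rfl fun i _ => Finset.sum_congr rfl fun μ _ => sum_eq s i μ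
    · refine le_trans (le_of_eq ?_) (L.defect_ge hp hRH h)
      refine Finset.sum_congr rfl fun i _ => Finset.sum_congr rfl fun μ _ => ?_
      rw [sum_eq]
      rfl
  · intro hδ i
    refine diagonalisable_of fun s hs μ => diag_of_large ht (fun ν hn => ?_) μ
    obtain ⟨s', L⟩ := hlev (s * t) (Nat.mul_pos hs ht) (Nat.dvd_mul_left _ _)
    have h1 := L.not_diag_le hp hRH h hn
    omega
  · intro hδ i hi
    refine diagonalisable_of fun s hs μ => diag_of_large ht (fun ν hn => ?_) μ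
    obtain ⟨s', L⟩ := hlev (s * t) (Nat.mul_pos hs ht) (Nat.dvd_mul_left _ _)
    have h1 := L.not_diag_le hp hRH h hn
    have h2 := h1.2.2 (Or.inl hi)
    omega

end

end Pool.Agent.Q55.Gp
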