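import Pool.Agent.Q55.Gp.Full
import Pool.Agent.TH132.P.Main
import Pool.Agent.Y163.TateB

/-!
# Gaps for the defect of `X × X`
-/

set_option autoImplicit false

open CategoryTheory AlgebraicGeometry
open scoped TensorProduct

universe u v

namespace Pool.Agent.Q55.Gp

open Module
open Pool.Agent.H914 Pool.Agent.H914.VarClass Pool.Agent.H914.VarClass.Obj
  Pool.Agent.H914.WeilCohomology Pool.Agent.W534 Pool.Agent.Y133.Half Pool.Agent.W552
  Pool.Agent.H281R3.HT Pool.Agent.TH132.P Pool.Agent.H447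

variable {k : Type u} [Field k] {𝒱 : VarClass k} {ops : CycleOps 𝒱}
  {W : WeilCohomology.{u, v} ops} {X Y Z : 𝒱.Obj} {p : ℕ} {Φ : FrobSystem W p} {s s' : ℕ}
  {σ : W.K →+* ℂ}

/-- The dimension of the space of generalised Tate classes and the defect. -/
lemma finrank_genT (hp : 1 < p) (hRH : RiemannHyp Φ σ Z) {j δ : ℕ} (hj : j ≤ Z.dim)
    (h : PoleDefect Φ σ Z j δ) : finrank W.K (genT Φ Z j) = numRank ops Z j + δ := by
  obtain ⟨t, ht, h⟩ := h
  obtain ⟨t', ht', h'⟩ := genT_spec Φ Z j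
  have h1 := h (t * t') (Nat.mul_pos ht ht') (Nat.dvd_mul_right _ _)
  rw [order_zetaFn Φ hp σ hRH (Nat.mul_pos ht ht') hj,
    h' (t * t') (Nat.mul_pos ht ht') (Nat.dvd_mul_left _ _)] at h1
  have h2 := WithTop.coe_injective h1
  omega

/-- The rank and the defect of `X × X`. -/
lemma Lev.finrank_eq (L : Lev Φ X s s') (hp : 1 < p) (hRH : RiemannHyp Φ σ (X.prod X)) {δ : ℕ}
    (h : PoleDefect Φ σ (X.prod X) X.dim δ) :
    finrank W.K (genTate Φ (X.prod X) s' X.dim) =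
      kRank W (X.prod X) X.dim X.dim + δ := by
  have hd : (X.prod X).dim = X.dim + X.dim := dim_prod _ _
  rw [L.stable, finrank_genT hp hRH (by omega) h, numRank_eq (W := W) (by omega)]
  rw [show (X.prod X).dim - X.dim = X.dim by omega]

lemma VE_ne {i : ℕ} {μ : W.K} (h : VE Φ X s i μ ≠ ⊥) : μ ≠ 0 ∧ i ≤ 2 * X.dim := by
  constructor
  · rintro rfl
    apply h
    rw [eq_bot_iff]
    intro x hx
    obtain ⟨⟨n, hn⟩, -⟩ := (mem_VE Φ).1 hx
    rw [zero_smul, sub_zero] at hn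
    rw [Submodule.mem_bot]
    apply frob_pow_injective Φ s n
    rw [hn, map_zero]
  · by_contra hi
    apply h
    rw [VE, W.gr_eq_bot X i (by omega), inf_bot_eq]

lemma nat_ineq {a n : ℕ} (h0 : 0 < a) (h1 : a < n) : n - 1 ≤ a * (n - a) := by
  obtain ⟨b, rfl⟩ := Nat.exists_eq_add_of_lt h1
  obtain ⟨c, rfl⟩ := Nat.exists_eq_add_of_le' h0
  rw [show c + 1 + b + 1 - (c + 1) = b + 1 by omega]
  rw [show c + 1 + b + 1 - 1 = c + b + 1 by omega]
  nlinarith [Nat.zero_le (c * b)]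

/-- **A proper stable subspace gives a lower bound for the defect.** -/
theorem Lev.gap (L : Lev Φ X s s') (hp : 1 < p) (hRH : RiemannHyp Φ σ (X.prod X)) {δ : ℕ}
    (h : PoleDefect Φ σ (X.prod X) X.dim δ) {i : ℕ} {μ : W.K} {U : Submodule W.K (W.H X)}
    (hU : U ≤ VE Φ X s i μ) (hS : Stb U) (h0 : U ≠ ⊥) (h1 : U ≠ VE Φ X s i μ) :
    2 ≤ finrank W.K (VE Φ X s i μ) ∧ 2 * (finrank W.K (VE Φ X s i μ) - 1) ≤ δ ∧
      (i ≠ X.dim ∨ μ ^ 2 ≠ (card Φ X s : W.K) ^ X.dim →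
        4 * (finrank W.K (VE Φ X s i μ) - 1) ≤ δ) := by
  have hlt : finrank W.K U < finrank W.K (VE Φ X s i μ) :=
    Submodule.finrank_lt_finrank_of_lt (lt_of_le_of_ne hU h1)
  have hpos : 0 < finrank W.K U := by
    rw [Nat.pos_iff_ne_zero]
    exact fun h2 => h0 (Submodule.finrank_eq_zero.1 h2)
  obtain ⟨hμ0, hi⟩ := VE_ne (ne_bot_of_le_ne_bot h0 hU)
  obtain ⟨l, hl⟩ := Nat.exists_eq_add_of_le hi
  have hμ : μ * ((card Φ X s : W.K) ^ X.dim * μ⁻¹) = (card Φ X s : W.K) ^ X.dim := by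
    rw [mul_left_comm, mul_inv_cancel₀ hμ0, mul_one]
  have h2 := L.finrank_eq hp hRH h
  have h3 := nat_ineq hpos hlt
  refine ⟨by omega, ?_, fun hne => ?_⟩
  · have h4 := defect_ge L hl.symm hμ hU hS
    omega
  · have hne' : i ≠ l ∨ μ ≠ (card Φ X s : W.K) ^ X.dim * μ⁻¹ := by
      rcases hne with h5 | h5
      · left; omega
      · right
        intro h6
        apply h5
        rw [pow_two]
        nth_rewrite 2 [h6]
        exact hμ
    have h4 := defect_ge' L hl.symm hμ hne' hU hS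
    omega

/-- **A positive defect needs an eigenvalue of multiplicity at least two.** -/
theorem Lev.exists_mult [IsAlgClosed W.K] (L : Lev Φ X s s') (hp : 1 < p)
    (hRH : ∀ Z : 𝒱.Obj, RiemannHyp Φ σ Z) {δ : ℕ}
    (h : PoleDefect Φ σ (X.prod X) X.dim δ) (hδ : 0 < δ) :
    ∃ (i : ℕ) (μ : W.K), ¬ Irr Φ X s i μ ∧ 2 ≤ finrank W.K (VE Φ X s i μ) ∧
      2 * (finrank W.K (VE Φ X s i μ) - 1) ≤ δ ∧
      (i ≠ X.dim ∨ μ ^ 2 ≠ (card Φ X s : W.K) ^ X.dim →
        4 * (finrank W.K (VE Φ X s i μ) - 1) ≤ δ) := by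
  by_contra hcon
  have hirr : ∀ i μ, Irr Φ X s i μ := by
    intro i μ U hU hS
    by_contra hne
    push Not at hne
    refine hcon ⟨i, μ, fun hir => ?_, L.gap hp (hRH _) h hU hS hne.1 hne.2⟩
    exact (hir U hU hS).elim hne.1 hne.2
  have h1 := tate_of_irr L hp (hRH X) hirr
  have hA := le_antisymm L.alg_le h1
  have hinj : Function.Injective (pair W (X.prod X) X.dim X.dim) := by
    refine (injective_iff_map_eq_zero _).2 ?_
    rintro ⟨a, ha⟩ h0
    apply Subtype.ext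
    apply genTate_nondeg Φ (s := s') (by rw [dim_prod]) (L.alg_le ha)
    intro y hy
    exact congrArg (fun F => F ⟨y, h1 hy⟩) h0
  have h2 : kRank W (X.prod X) X.dim X.dim =
      finrank W.K (spanCycles W (X.prod X) (X.dim : ℕ)) := LinearMap.finrank_range_of_inj hinj
  have h3 := L.finrank_eq hp (hRH _) h
  rw [h2, ← hA] at h3
  omega

end Pool.Agent.Q55.Gp
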