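import Pool.Agent.Q55.Gp.Jor
import Pool.Agent.Q55.Gp.Main

/-!
# The numerical rank of `X × X` and the Jordan type of Frobenius
-/

set_option autoImplicit false
set_option linter.unusedSectionVars false

open CategoryTheory AlgebraicGeometry Polynomial
open scoped TensorProduct

universe u v

namespace Pool.Agent.Q55.Gp

open Module
open Pool.Agent.H914 Pool.Agent.H914.VarClass Pool.Agent.H914.VarClass.Obj
  Pool.Agent.H914.WeilCohomology Pool.Agent.W534 Pool.Agent.Y133.Half Pool.Agent.W552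
  Pool.Agent.H281R3.HT Pool.Agent.TH132.P Pool.Agent.H447
open Pool.Agent.W458.MF (hasEigenvalue_of_gen)

variable {k : Type u} [Field k] {𝒱 : VarClass k} {ops : CycleOps 𝒱}
  {W : WeilCohomology.{u, v} ops} {X Y Z : 𝒱.Obj} {p : ℕ} {Φ : FrobSystem W p} {s s' : ℕ}
  {σ : W.K →+* ℂ}

/-! ## Ranks of sums -/

section Lin

variable {K A B : Type*} [Field K] [AddCommGroup A] [Module K A] [AddCommGroup B] [Module K B]
  [Module.Finite K A] [Module.Finite K B]

lemma rank_sum_le {ι : Type*} (S : Finset ι) (f : ι → A →ₗ[K] B) :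
    finrank K (LinearMap.range (∑ i ∈ S, f i)) ≤ ∑ i ∈ S, finrank K (LinearMap.range (f i)) := by
  classical
  induction S using Finset.induction with
  | empty => rw [Finset.sum_empty, Finset.sum_empty, LinearMap.range_zero, finrank_bot]
  | insert a S ha ih =>
    rw [Finset.sum_insert ha, Finset.sum_insert ha]
    have h1 : LinearMap.range (f a + ∑ i ∈ S, f i) ≤
        LinearMap.range (f a) ⊔ LinearMap.range (∑ i ∈ S, f i) := by
      rintro _ ⟨x, rfl⟩
      exact Submodule.add_mem_sup ⟨x, rfl⟩ ⟨x, rfl⟩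
    have h2 := Submodule.finrank_mono h1
    have h3 := Submodule.finrank_add_le_finrank_add_finrank (LinearMap.range (f a))
      (LinearMap.range (∑ i ∈ S, f i))
    omega

omit [Module.Finite K B] in
lemma rank_le_of_ker {C : Type*} [AddCommGroup C] [Module K C] [Module.Finite K C]
    (f : A →ₗ[K] B) (g : A →ₗ[K] C) (h : ∀ x, g x = 0 → f x = 0) :
    finrank K (LinearMap.range f) ≤ finrank K C := by
  have h1 := LinearMap.finrank_range_add_finrank_ker f
  have h2 := LinearMap.finrank_range_add_finrank_ker g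
  have h3 : LinearMap.ker g ≤ LinearMap.ker f := fun x hx => h x hx
  have h4 := Submodule.finrank_mono h3
  have h5 := Submodule.finrank_le (LinearMap.range g)
  omega

end Lin

/-! ## The forms -/

/-- The form `Tr (π a b')`, with signs, on the classes on `X × X`. -/
noncomputable def formP (π : Module.End W.K (W.H X)) :
    W.H (X.prod X) →ₗ[W.K] W.H (X.prod X) →ₗ[W.K] W.K :=
  LinearMap.mk₂ W.K (fun a b => LinearMap.trace W.K (W.H X) (par (W.isInternal X) ∘ₗ π ∘ₗ
      W.corr a ∘ₗ W.corr (W.map (swap X X) b)))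
    (fun a a' b => by
      rw [corr_add, LinearMap.add_comp, LinearMap.comp_add, LinearMap.comp_add, map_add])
    (fun c a b => by
      rw [corr_smul, LinearMap.smul_comp, LinearMap.comp_smul, LinearMap.comp_smul, map_smul])
    (fun a b b' => by
      rw [map_add, corr_add, LinearMap.comp_add, LinearMap.comp_add, LinearMap.comp_add, map_add])
    (fun c a b => by
      rw [map_smul, corr_smul, LinearMap.comp_smul, LinearMap.comp_smul, LinearMap.comp_smul,
        map_smul])

lemma formP_apply (π : Module.End W.K (W.H X)) (a b : W.H (X.prod X)) : formP π a b =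
    LinearMap.trace W.K (W.H X) (par (W.isInternal X) ∘ₗ π ∘ₗ
      W.corr a ∘ₗ W.corr (W.map (swap X X) b)) := rfl

lemma formP_one (a b : W.H (X.prod X)) : formP (1 : Module.End W.K (W.H X)) a b =
    W.tr _ (a * b) := by
  rw [formP_apply]
  have h1 := trace_corr_corr a (W.map (swap X X) b)
  rw [Y133.Half.swap_swap] at h1
  exact h1

lemma formP_sum {ι : Type*} (S : Finset ι) (π : ι → Module.End W.K (W.H X)) :
    formP (∑ i ∈ S, π i) = ∑ i ∈ S, formP (π i) := by
  apply LinearMap.ext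
  intro a
  apply LinearMap.ext
  intro b
  rw [LinearMap.sum_apply, LinearMap.sum_apply, formP_apply]
  simp only [formP_apply]
  rw [← map_sum]
  congr 1
  apply LinearMap.ext
  intro x
  simp only [LinearMap.comp_apply, LinearMap.sum_apply, map_sum]

lemma res_sum {ι : Type*} (S : Finset ι) (B : ι → W.H (X.prod X) →ₗ[W.K] W.H (X.prod X) →ₗ[W.K]
    W.K) (A : Submodule W.K (W.H (X.prod X))) :
    res (∑ i ∈ S, B i) A A = ∑ i ∈ S, res (B i) A A := by
  apply LinearMap.ext
  intro a
  apply LinearMap.ext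
  intro b
  rw [LinearMap.sum_apply, LinearMap.sum_apply, res_apply, LinearMap.sum_apply,
    LinearMap.sum_apply]
  rfl

/-- Algebraic correspondences commute with the nilpotent part of Frobenius. -/
lemma Lev.commOn (L : Lev Φ X s s') {u : Module.End W.K (W.H X)} (hu : u ∈ AA W X) (i : ℕ)
    (μ : W.K) : CommOn (frob Φ X s - μ • (1 : Module.End W.K (W.H X))) (VE Φ X s i μ) u := by
  intro x hx
  refine ⟨L.apply hu hx, ?_⟩
  rw [LinearMap.sub_apply, LinearMap.sub_apply, map_sub, L.comm hu, LinearMap.smul_apply,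
    LinearMap.smul_apply, map_smul]
  rfl

lemma VE_stable (s i : ℕ) (μ : W.K) : ∀ x ∈ VE Φ X s i μ,
    (frob Φ X s - μ • (1 : Module.End W.K (W.H X))) x ∈ VE Φ X s i μ := by
  intro x hx
  obtain ⟨⟨n, hn⟩, hg⟩ := (mem_VE Φ).1 hx
  refine (mem_VE Φ).2 ⟨⟨n, ?_⟩, ?_⟩
  · rw [← Module.End.mul_apply, ← pow_succ, pow_succ', Module.End.mul_apply, hn, map_zero]
  · rw [LinearMap.sub_apply, LinearMap.smul_apply, Module.End.one_apply]
    exact Submodule.sub_mem _ (W.map_mem _ hg) (Submodule.smul_mem _ _ hg)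

lemma VE_nil (s i : ℕ) (μ : W.K) : ∀ x ∈ VE Φ X s i μ,
    ((frob Φ X s - μ • (1 : Module.End W.K (W.H X))) ^ (finrank W.K (W.H X))) x = 0 := by
  intro x hx
  have h1 : x ∈ (frob Φ X s).maxGenEigenspace μ := hx.1
  rw [Module.End.maxGenEigenspace_eq_genEigenspace_finrank, Module.End.mem_genEigenspace_nat,
    LinearMap.mem_ker] at h1
  exact h1

/-- **The rank of the form of one generalised eigenspace.** -/
theorem Lev.rank_formP (L : Lev Φ X s s') {i : ℕ} {μ : W.K} {π : Module.End W.K (W.H X)}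
    (hπ1 : ∀ x, π x ∈ VE Φ X s i μ) (hπ2 : ∀ x ∈ VE Φ X s i μ, π x = x) :
    finrank W.K (LinearMap.range (res (formP π) (spanCycles W (X.prod X) (X.dim : ℕ))
      (spanCycles W (X.prod X) (X.dim : ℕ)))) ≤
      ∑ k ∈ Finset.range (finrank W.K (W.H X)),
        cN (frob Φ X s - μ • (1 : Module.End W.K (W.H X))) (VE Φ X s i μ) k ^ 2 := by
  obtain ⟨C, ρ, hC, hρ⟩ := exists_rho (VE_stable (Φ := Φ) (X := X) s i μ)
    (VE_nil (Φ := Φ) (X := X) s i μ)
  rw [← hC]
  refine rank_le_of_ker _ (ρ ∘ₗ (Y133.Half.corrL W X X) ∘ₗ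
    (spanCycles W (X.prod X) (X.dim : ℕ)).subtype) ?_
  rintro ⟨a, ha⟩ h0
  apply LinearMap.ext
  rintro ⟨b, hb⟩
  rw [res_apply, LinearMap.zero_apply, formP_apply]
  have ha' := L.commOn (corr_mem_AA ha) i μ
  have hb' := L.commOn (corr_mem_AA (swap_span hb)) i μ
  have h1 := hρ _ ha' h0 _ hb'
  set w : Module.End W.K (W.H X) := W.corr a * W.corr (W.map (swap X X) b) with hw
  set T : Module.End W.K (W.H X) := par (W.isInternal X) ∘ₗ π ∘ₗ W.corr a ∘ₗ
    W.corr (W.map (swap X X) b) with hT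
  have hTx : ∀ x, T x = (-1 : W.K) ^ i • π (w x) := by
    intro x
    exact PH.par (PH.of (hπ1 (w x)).2)
  have hwV : ∀ x ∈ VE Φ X s i μ, w x ∈ VE Φ X s i μ := fun x hx => (ha' _ (hb' x hx).1).1
  have hTp : ∀ j, ∀ x ∈ VE Φ X s i μ, (T ^ j) x = ((-1 : W.K) ^ i) ^ j • (w ^ j) x := by
    intro j
    induction j with
    | zero => intro x _; rw [pow_zero, pow_zero, pow_zero, one_smul]
    | succ j ih =>
      intro x hx
      have e1 : (T ^ (j + 1)) x = (T ^ j) (T x) := by rw [pow_succ, Module.End.mul_apply]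
      have e2 : (w ^ (j + 1)) x = (w ^ j) (w x) := by
        rw [pow_succ]
        exact Module.End.mul_apply _ _ _
      rw [e1, e2, hTx, hπ2 _ (hwV x hx), map_smul, ih _ (hwV x hx), smul_smul,
        pow_succ ((-1 : W.K) ^ i), mul_comm]
  have hnil : IsNilpotent T := by
    refine ⟨finrank W.K (W.H X) * finrank W.K (W.H X) + 1, ?_⟩
    apply LinearMap.ext
    intro x
    have hx : T x ∈ VE Φ X s i μ := by
      rw [hTx]
      exact Submodule.smul_mem _ _ (hπ1 _)
    rw [pow_succ, Module.End.mul_apply, hTp _ _ hx, h1 _ hx, smul_zero, LinearMap.zero_apply]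
  exact (LinearMap.isNilpotent_trace_of_isNilpotent hnil).eq_zero

/-! ## All eigenvalues -/

/-- The dimensions of the spaces `KN`. -/
lemma finrank_KN (s i : ℕ) (μ : W.K) (j : ℕ) :
    finrank W.K (KN (frob Φ X s - μ • (1 : Module.End W.K (W.H X))) (VE Φ X s i μ) j) +
      finrank W.K (LinearMap.ker ((frob Φ X s - μ • (1 : Module.End W.K (W.H X))) ^ j) ⊓
        W.gr X i : Submodule W.K (W.H X)) =
      finrank W.K (LinearMap.ker ((frob Φ X s - μ • (1 : Module.End W.K (W.H X))) ^ (j + 1)) ⊓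
        W.gr X i : Submodule W.K (W.H X)) := by
  set N := frob Φ X s - μ • (1 : Module.End W.K (W.H X)) with hN
  set S := (LinearMap.ker (N ^ (j + 1)) ⊓ W.gr X i : Submodule W.K (W.H X)) with hS
  have hVE : ∀ m : ℕ, ∀ x ∈ (LinearMap.ker (N ^ m) ⊓ W.gr X i : Submodule W.K (W.H X)),
      x ∈ VE Φ X s i μ := fun m x hx => (mem_VE Φ).2 ⟨⟨m, hx.1⟩, hx.2⟩
  have hmem : ∀ x : S, (N ^ j) x ∈ KN N (VE Φ X s i μ) j := by
    rintro ⟨x, hx⟩
    have hxV := hVE _ x hx
    refine ⟨pow_stays (VE_stable s i μ) j hxV, ?_, x, hxV, rfl⟩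
    rw [← Module.End.mul_apply, ← pow_succ']
    exact hx.1
  set φ : S →ₗ[W.K] KN N (VE Φ X s i μ) j := ((N ^ j) ∘ₗ S.subtype).codRestrict _ hmem with hφ
  have h1 := LinearMap.finrank_range_add_finrank_ker φ
  have h2 : LinearMap.range φ = ⊤ := by
    rw [eq_top_iff]
    rintro ⟨x, hx, hx0, y, hy, hyx⟩ -
    refine ⟨⟨y, ?_, hy.2⟩, Subtype.ext hyx⟩
    change (N ^ (j + 1)) y = 0
    rw [pow_succ', Module.End.mul_apply, hyx, hx0]
  have h3 : finrank W.K (LinearMap.ker φ) =
      finrank W.K (LinearMap.ker (N ^ j) ⊓ W.gr X i : Submodule W.K (W.H X)) := by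
    have hle : (LinearMap.ker (N ^ j) ⊓ W.gr X i : Submodule W.K (W.H X)) ≤ S := by
      rintro x ⟨hx, hxg⟩
      refine ⟨?_, hxg⟩
      change (N ^ (j + 1)) x = 0
      rw [pow_succ', Module.End.mul_apply, show (N ^ j) x = 0 from hx, map_zero]
    have h4 : LinearMap.ker φ = (LinearMap.ker (N ^ j) ⊓ W.gr X i : Submodule W.K (W.H X)).comap
        S.subtype := by
      ext x
      rw [LinearMap.mem_ker, Submodule.mem_comap]
      constructor
      · intro h
        exact ⟨congrArg Subtype.val h, x.2.2⟩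
      · intro h
        exact Subtype.ext h.1
    rw [h4]
    exact LinearEquiv.finrank_eq (Submodule.comapSubtypeEquivOfLe hle)
  rw [h2, finrank_top, h3] at h1
  exact h1

end Pool.Agent.Q55.Gp
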