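import Pool.Agent.Q55.Gp.JForm
import Pool.Agent.Q55.Gp.JDefs

/-!
# The numerical rank of `X × X` and the Jordan type of Frobenius: sums over all eigenvalues
-/

set_option autoImplicit false
set_option linter.unusedSectionVars false

open CategoryTheory AlgebraicGeometry Polynomial
open scoped TensorProduct

universe u v

namespace Pool.Agent.Q55.Gp

open Module
open Pool.Agent.H914 Pool.Agent.H914.VarClass Pool.Agent.H914.VarClass.Obj
  Pool.Agent.H914.WeilCohomology Pool.Agent.W534 Pool.Agent.Y133.Half Pool.Agent.W552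
  Pool.Agent.H281R3.HT Pool.Agent.TH132.P Pool.Agent.H447
open Pool.Agent.W458.MF (hasEigenvalue_of_gen)

/-! ## Numbers -/

section Num

lemma abel {n : ℕ} {w : ℕ → ℕ} (hw : ∀ k, w (k + 1) ≤ w k) (hn : w n = 0) :
    ∑ k ∈ Finset.range n, (k + 1) * (w k - w (k + 1)) = ∑ k ∈ Finset.range n, w k := by
  have key : ∀ n, ∑ k ∈ Finset.range n, (k + 1) * (w k - w (k + 1)) + n * w n =
      ∑ k ∈ Finset.range n, w k := by
    intro n
    induction n with
    | zero => simp
    | succ n ih =>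
      rw [Finset.sum_range_succ, Finset.sum_range_succ, ← ih]
      obtain ⟨c, hc⟩ := Nat.exists_eq_add_of_le (hw n)
      rw [hc, Nat.add_sub_cancel_left]
      ring
  have := key n
  rw [hn, mul_zero, add_zero] at this
  exact this

lemma sum_sq_le {ι : Type*} (S : Finset ι) (c : ι → ℕ) : ∑ k ∈ S, c k ^ 2 ≤ (∑ k ∈ S, c k) ^ 2 := by
  classical
  induction S using Finset.induction with
  | empty => simp
  | insert a S ha ih =>
    rw [Finset.sum_insert ha, Finset.sum_insert ha]
    nlinarith [Nat.zero_le (c a * ∑ k ∈ S, c k)]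

lemma sum_le_weighted (S : Finset ℕ) (c : ℕ → ℕ) : ∑ k ∈ S, c k ≤ ∑ k ∈ S, (k + 1) * c k :=
  Finset.sum_le_sum fun k _ => Nat.le_mul_of_pos_left _ (Nat.succ_pos k)

lemma sq_le_mult {n m : ℕ} {c : ℕ → ℕ} (hm : ∑ k ∈ Finset.range n, (k + 1) * c k = m) :
    ∑ k ∈ Finset.range n, c k ^ 2 ≤ m ^ 2 := by
  refine (sum_sq_le _ c).trans ?_
  have h1 := sum_le_weighted (Finset.range n) c
  rw [hm] at h1
  exact Nat.pow_le_pow_left h1 2

/-- The inequality for nilpotent operators which are not zero. -/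
lemma jordan_ineq {n m : ℕ} {c : ℕ → ℕ} (hm : ∑ k ∈ Finset.range n, (k + 1) * c k = m) {j : ℕ}
    (hj : 0 < j) (hjn : j < n) (hc : 0 < c j) :
    2 ≤ m ∧ ∑ k ∈ Finset.range n, c k ^ 2 + 4 * m ≤ m ^ 2 + 5 := by
  classical
  have hmem : j ∈ Finset.range n := Finset.mem_range.2 hjn
  rw [← Finset.add_sum_erase _ _ hmem] at hm ⊢
  set b := ∑ k ∈ (Finset.range n).erase j, c k with hb
  have h1 : ∑ k ∈ (Finset.range n).erase j, c k ^ 2 ≤ b ^ 2 := sum_sq_le _ c
  have h2 : b ≤ ∑ k ∈ (Finset.range n).erase j, (k + 1) * c k := sum_le_weighted _ c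
  have h3 : 2 * c j ≤ (j + 1) * c j := Nat.mul_le_mul_right _ (by omega)
  obtain ⟨a, ha⟩ := Nat.exists_eq_add_of_le' hc
  rw [ha] at hm h3 ⊢
  set r := ∑ k ∈ (Finset.range n).erase j, (k + 1) * c k
  set r2 := ∑ k ∈ (Finset.range n).erase j, c k ^ 2
  obtain ⟨x, hx⟩ : ∃ x, m = 2 * (a + 1) + b + x := ⟨m - (2 * (a + 1) + b), by omega⟩
  refine ⟨by omega, ?_⟩
  rw [hx]
  nlinarith [Nat.zero_le (a * b), Nat.zero_le (a * a), Nat.zero_le (x * x), Nat.zero_le (x * a),
    Nat.zero_le (x * b), Nat.zero_le a, Nat.zero_le b, Nat.zero_le x]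

end Num

variable {k : Type u} [Field k] {𝒱 : VarClass k} {ops : CycleOps 𝒱}
  {W : WeilCohomology.{u, v} ops} {X Y Z : 𝒱.Obj} {p : ℕ} {Φ : FrobSystem W p} {s s' : ℕ}
  {σ : W.K →+* ℂ}

/-- The nilpotent part. -/
noncomputable abbrev Nm (Φ : FrobSystem W p) (X : 𝒱.Obj) (s : ℕ) (μ : W.K) :
    Module.End W.K (W.H X) :=
  frob Φ X s - μ • (1 : Module.End W.K (W.H X))

/-- The numbers of the Jordan blocks. -/
noncomputable def cc (Φ : FrobSystem W p) (X : 𝒱.Obj) (s i : ℕ) (μ : W.K) (j : ℕ) : ℕ :=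
  cN (Nm Φ X s μ) (VE Φ X s i μ) j

lemma ker_pow_eq (s i : ℕ) (μ : W.K) : (LinearMap.ker (Nm Φ X s μ ^ finrank W.K (W.H X)) ⊓
    W.gr X i : Submodule W.K (W.H X)) = VE Φ X s i μ := by
  apply le_antisymm
  · exact fun x hx => (mem_VE Φ).2 ⟨⟨_, hx.1⟩, hx.2⟩
  · exact fun x hx => ⟨VE_nil s i μ x hx, hx.2⟩

/-- The sum of the sizes of the Jordan blocks is the multiplicity. -/
lemma sum_cc (s i : ℕ) (μ : W.K) :
    ∑ j ∈ Finset.range (finrank W.K (W.H X)), (j + 1) * cc Φ X s i μ j =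
      finrank W.K (VE Φ X s i μ) := by
  have h1 : ∀ j, finrank W.K (KN (Nm Φ X s μ) (VE Φ X s i μ) (j + 1)) ≤
      finrank W.K (KN (Nm Φ X s μ) (VE Φ X s i μ) j) := fun j =>
    Submodule.finrank_mono (KN_succ_le (VE_stable s i μ) j)
  have h2 : finrank W.K (KN (Nm Φ X s μ) (VE Φ X s i μ) (finrank W.K (W.H X))) = 0 := by
    rw [KN_bot (VE_nil s i μ), finrank_bot]
  refine (abel h1 h2).trans ?_
  have h3 : ∀ n, ∑ j ∈ Finset.range n, finrank W.K (KN (Nm Φ X s μ) (VE Φ X s i μ) j) =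
      finrank W.K (LinearMap.ker (Nm Φ X s μ ^ n) ⊓ W.gr X i : Submodule W.K (W.H X)) := by
    intro n
    induction n with
    | zero =>
      have : (LinearMap.ker (Nm Φ X s μ ^ 0) ⊓ W.gr X i : Submodule W.K (W.H X)) = ⊥ := by
        rw [pow_zero, Module.End.one_eq_id, LinearMap.ker_id, bot_inf_eq]
      rw [this, finrank_bot, Finset.sum_range_zero]
    | succ n ih => rw [Finset.sum_range_succ, ih, add_comm, finrank_KN]
  rw [h3, ker_pow_eq]

lemma sum_cc_sq_le (s i : ℕ) (μ : W.K) :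
    ∑ j ∈ Finset.range (finrank W.K (W.H X)), cc Φ X s i μ j ^ 2 ≤
      finrank W.K (VE Φ X s i μ) ^ 2 :=
  sq_le_mult (sum_cc s i μ)

/-- The inequality if Frobenius is not diagonalisable. -/
lemma not_diag {i : ℕ} {μ : W.K} {x : W.H X} (hx : x ∈ VE Φ X s i μ) (h0 : Nm Φ X s μ x ≠ 0) :
    2 ≤ finrank W.K (VE Φ X s i μ) ∧
    ∑ j ∈ Finset.range (finrank W.K (W.H X)), cc Φ X s i μ j ^ 2 +
      4 * finrank W.K (VE Φ X s i μ) ≤ finrank W.K (VE Φ X s i μ) ^ 2 + 5 := by
  set n := finrank W.K (W.H X) with hn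
  set w : ℕ → ℕ := fun j => finrank W.K (KN (Nm Φ X s μ) (VE Φ X s i μ) j) with hw
  have hwn : w n = 0 := by
    simp only [hw]
    rw [KN_bot (VE_nil s i μ), finrank_bot]
  -- the space `KN 1` is not zero
  have hw1 : w 1 ≠ 0 := by
    intro h1
    have h2 : KN (Nm Φ X s μ) (VE Φ X s i μ) 1 = ⊥ := Submodule.finrank_eq_zero.1 h1
    have key : ∀ j : ℕ, ∀ y ∈ VE Φ X s i μ, (Nm Φ X s μ ^ (j + 1)) y = 0 → Nm Φ X s μ y = 0 := by
      intro j
      induction j with
      | zero => intro y _ hy; simpa using hy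
      | succ j ih =>
        intro y hy hy0
        have h3 : Nm Φ X s μ (Nm Φ X s μ y) = 0 := by
          refine ih _ (VE_stable s i μ y hy) ?_
          rw [← Module.End.mul_apply, ← pow_succ]
          exact hy0
        have h4 : Nm Φ X s μ y ∈ KN (Nm Φ X s μ) (VE Φ X s i μ) 1 :=
          ⟨VE_stable s i μ y hy, h3, y, hy, by rw [pow_one]⟩
        rw [h2, Submodule.mem_bot] at h4
        exact h4
    have h5 := VE_nil s i μ x hx
    refine h0 (key n x hx ?_)
    rw [pow_succ', Module.End.mul_apply, h5, map_zero]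
  -- there is a block of size at least two
  obtain ⟨j, hj, hjn, hc⟩ : ∃ j, 0 < j ∧ j < n ∧ 0 < cc Φ X s i μ j := by
    by_contra hcon
    push Not at hcon
    have h1 : ∀ j, 0 < j → j ≤ n → w j = w 1 := by
      intro j
      induction j with
      | zero => intro h; omega
      | succ j ih =>
        intro _ hjn
        rcases Nat.eq_zero_or_pos j with rfl | hj
        · rfl
        · have h2 := hcon j hj (by omega)
          have h3 : w j - w (j + 1) = 0 := by
            have : cc Φ X s i μ j = w j - w (j + 1) := rfl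
            omega
          have h4 : w (j + 1) ≤ w j := Submodule.finrank_mono (KN_succ_le (VE_stable s i μ) j)
          have h5 := ih hj (by omega)
          omega
    have hnpos : 0 < n := by
      rw [hn, Module.finrank_pos_iff_exists_ne_zero]
      exact ⟨_, h0⟩
    exact hw1 (by rw [← h1 n hnpos le_rfl, hwn])
  exact jordan_ineq (sum_cc s i μ) hj hjn hc

section

variable [IsAlgClosed W.K]

lemma mem_eigs {s : ℕ} {μ : W.K} : μ ∈ eigs Φ X s ↔ (frob Φ X s).HasEigenvalue μ := by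
  classical
  rw [eigs, eigOf, Multiset.mem_toFinset, mem_roots (LinearMap.charpoly_monic _).ne_zero,
    Module.End.hasEigenvalue_iff_isRoot_charpoly]

lemma gen_bot {s : ℕ} {μ : W.K} (h : μ ∉ eigs Φ X s) :
    (frob Φ X s).maxGenEigenspace μ = ⊥ := by
  rw [eq_bot_iff]
  intro x hx
  rw [Submodule.mem_bot]
  by_contra h0
  exact h (mem_eigs.2 (hasEigenvalue_of_gen hx h0))

lemma VE_bot {s i : ℕ} {μ : W.K} (h : μ ∉ eigs Φ X s) : VE Φ X s i μ = ⊥ := by
  rw [VE, gen_bot h, bot_inf_eq]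

/-- The projectors to the generalised eigenspaces. -/
lemma exists_projs (Φ : FrobSystem W p) (X : 𝒱.Obj) (s : ℕ) : ∃ π : W.K → Module.End W.K (W.H X),
    (∀ μ x, π μ x ∈ (frob Φ X s).maxGenEigenspace μ) ∧
    (∀ μ, ∀ x ∈ (frob Φ X s).maxGenEigenspace μ, π μ x = x) ∧
    ∑ μ ∈ eigs Φ X s, π μ = 1 := by
  choose P hP1 hP2 using exists_poly (frob Φ X s)
  have hind : ∀ {q : W.H X → Prop}, (∀ ν, ∀ x ∈ (frob Φ X s).maxGenEigenspace ν, q x) → q 0 →
      (∀ x y, q x → q y → q (x + y)) → ∀ x, q x := by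
    intro q h1 h2 h3 x
    have hx : x ∈ ⨆ ν, (frob Φ X s).maxGenEigenspace ν := by
      rw [Module.End.iSup_maxGenEigenspace_eq_top]
      trivial
    exact Submodule.iSup_induction _ (motive := q) hx h1 h2 h3
  refine ⟨fun μ => aeval (frob Φ X s) (P μ), ?_, hP1, ?_⟩
  · intro μ x
    refine hind (q := fun x => aeval (frob Φ X s) (P μ) x ∈ (frob Φ X s).maxGenEigenspace μ)
      ?_ ?_ ?_ x
    · intro ν x hx
      by_cases hν : ν = μ
      · subst hν
        rw [hP1 ν x hx]
        exact hx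
      · rw [hP2 μ ν hν x hx]
        exact Submodule.zero_mem _
    · rw [map_zero]
      exact Submodule.zero_mem _
    · intro x y hx hy
      rw [map_add]
      exact Submodule.add_mem _ hx hy
  · apply LinearMap.ext
    intro x
    refine hind (q := fun x => (∑ μ ∈ eigs Φ X s, aeval (frob Φ X s) (P μ)) x =
      (1 : Module.End W.K (W.H X)) x) ?_ ?_ ?_ x
    · intro ν x hx
      by_cases hν : ν ∈ eigs Φ X s
      · rw [LinearMap.sum_apply, Finset.sum_eq_single ν]
        · exact hP1 ν x hx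
        · intro μ _ hμ
          exact hP2 μ ν (Ne.symm hμ) x hx
        · exact fun h => absurd hν h
      · rw [gen_bot hν, Submodule.mem_bot] at hx
        rw [hx, map_zero, map_zero]
    · rw [map_zero, map_zero]
    · intro x y hx hy
      rw [map_add, map_add, hx, hy]

/-- The sum over all degrees and eigenvalues. -/
lemma sum_degrees (hp : 1 < p) (hRH : RiemannHyp Φ σ X) (hs : 0 < s) {f : ℕ → W.K → ℕ}
    (hf : ∀ i μ, VE Φ X s i μ = ⊥ → f i μ = 0) {d : W.K → ℕ}
    (hd : ∀ μ, (frob Φ X s).maxGenEigenspace μ = VE Φ X s (d μ) μ) :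
    ∑ μ ∈ eigs Φ X s, f (d μ) μ =
      ∑ i ∈ Finset.range (2 * X.dim + 1), ∑ μ ∈ eigs Φ X s, f i μ := by
  rw [Finset.sum_comm]
  refine Finset.sum_congr rfl fun μ hμ => ?_
  have hne : VE Φ X s (d μ) μ ≠ ⊥ := by
    rw [← hd μ]
    obtain ⟨x, hx, hx0⟩ := (mem_eigs.1 hμ).exists_hasEigenvector
    intro h
    apply hx0
    have h1 : x ∈ (frob Φ X s).maxGenEigenspace μ :=
      (Module.End.mem_maxGenEigenspace _ _ _).2 ⟨1, by
        rw [pow_one, LinearMap.sub_apply, Module.End.mem_eigenspace_iff.1 hx,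
          LinearMap.smul_apply, Module.End.one_apply, sub_self]⟩
    rwa [h, Submodule.mem_bot] at h1
  have hdm : d μ ∈ Finset.range (2 * X.dim + 1) := by
    rw [Finset.mem_range]
    have := (VE_ne hne).2
    omega
  rw [Finset.sum_eq_single_of_mem (d μ) hdm]
  intro j _ hj
  apply hf
  by_contra h
  exact hj (degree_unique (Φ := Φ) (s := s) (μ := μ) hp hRH hs h hne)

/-- **The numerical rank of `X × X` is bounded by the Jordan type of Frobenius.** -/
theorem Lev.kRank_le (L : Lev Φ X s s') (hp : 1 < p) (hRH : RiemannHyp Φ σ X) :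
    kRank W (X.prod X) X.dim X.dim ≤ ∑ i ∈ Finset.range (2 * X.dim + 1), ∑ μ ∈ eigs Φ X s,
      ∑ j ∈ Finset.range (finrank W.K (W.H X)), cc Φ X s i μ j ^ 2 := by
  choose d hd using exists_degree (Φ := Φ) (Z := X) (s := s) hp hRH L.pos
  obtain ⟨π, hπ1, hπ2, hπ3⟩ := exists_projs Φ X s
  rw [← sum_degrees hp hRH L.pos (f := fun i μ => ∑ j ∈ Finset.range (finrank W.K (W.H X)),
    cc Φ X s i μ j ^ 2) ?_ hd]
  · have h1 : res (trB W (X.prod X)) (spanCycles W (X.prod X) (X.dim : ℕ))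
        (spanCycles W (X.prod X) (X.dim : ℕ)) = ∑ μ ∈ eigs Φ X s, res (formP (π μ))
          (spanCycles W (X.prod X) (X.dim : ℕ)) (spanCycles W (X.prod X) (X.dim : ℕ)) := by
      rw [← res_sum, ← formP_sum, hπ3]
      apply LinearMap.ext
      intro a
      apply LinearMap.ext
      intro b
      rw [res_apply, res_apply, formP_one, trB_apply]
    change finrank W.K (LinearMap.range (res (trB W (X.prod X))
      (spanCycles W (X.prod X) (X.dim : ℕ)) (spanCycles W (X.prod X) (X.dim : ℕ)))) ≤ _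
    rw [h1]
    refine (rank_sum_le _ _).trans (Finset.sum_le_sum fun μ _ => ?_)
    exact L.rank_formP (fun x => by rw [← hd]; exact hπ1 μ x)
      fun x hx => hπ2 μ x (by rw [hd]; exact hx)
  · intro i μ h0
    refine Finset.sum_eq_zero fun j _ => ?_
    rw [cc, cN]
    have h2 : KN (Nm Φ X s μ) (VE Φ X s i μ) j = ⊥ := by
      rw [eq_bot_iff, ← h0]
      exact KN_le
    rw [h2, finrank_bot, Nat.zero_sub]
    rfl

/-- The values of the correspondences in an external product. -/
lemma corr_XP_mem {i : ℕ} {S T : Submodule W.K (W.H X)} (hT : T ≤ W.gr X i)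
    {z : W.H (X.prod X)} (hz : z ∈ XP S T) (x : W.H X) : W.corr z x ∈ T := by
  refine XP_ind (q := fun z => ∀ x, W.corr z x ∈ T) ?_ ?_ ?_ hz x
  · intro x; rw [corr_zero]; exact Submodule.zero_mem _
  · intro a b ha hb x; rw [corr_add]; exact Submodule.add_mem _ (ha x) (hb x)
  · intro a ha b hb x
    refine gr_induction (W.isInternal X) (p := fun x => W.corr (xp W a b) x ∈ T) ?_ ?_ x
    · intro j x hx
      rw [corr_xp a (PH.of (hT hb)) (PH.of hx)]
      exact Submodule.smul_mem _ _ hb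
    · intro x y hx hy; rw [map_add]; exact Submodule.add_mem _ hx hy

/-- The sum of the squares of the multiplicities is at most the order of the pole. -/
theorem Lev.sum_sq_le (L : Lev Φ X s s') (hp : 1 < p) (hRH : RiemannHyp Φ σ X) :
    ∑ i ∈ Finset.range (2 * X.dim + 1), ∑ μ ∈ eigs Φ X s, finrank W.K (VE Φ X s i μ) ^ 2 ≤
      finrank W.K (genTate Φ (X.prod X) s' X.dim) := by
  classical
  choose d hd using exists_degree (Φ := Φ) (Z := X) (s := s) hp hRH L.pos
  rw [← sum_degrees hp hRH L.pos (f := fun i μ => finrank W.K (VE Φ X s i μ) ^ 2)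
    (fun i μ h => by rw [h, finrank_bot]; rfl) hd]
  -- the spaces of rank one operators
  have h1 : ∀ μ, ∃ N : Submodule W.K (W.H (X.prod X)),
      N ≤ genTate Φ (X.prod X) s' X.dim ∧ (∀ z ∈ N, ∀ x, W.corr z x ∈ VE Φ X s (d μ) μ) ∧
      finrank W.K N = finrank W.K (VE Φ X s (d μ) μ) ^ 2 := by
    intro μ
    by_cases h0 : VE Φ X s (d μ) μ = ⊥
    · refine ⟨⊥, bot_le, fun z hz x => ?_, ?_⟩
      · rw [(Submodule.mem_bot _).1 hz, corr_zero]
        exact Submodule.zero_mem _
      · rw [h0, finrank_bot, finrank_bot]; rfl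
    · obtain ⟨hμ0, hi⟩ := VE_ne h0
      obtain ⟨l, hl⟩ := Nat.exists_eq_add_of_le hi
      have hμ : μ * ((card Φ X s : W.K) ^ X.dim * μ⁻¹) = (card Φ X s : W.K) ^ X.dim := by
        rw [mul_left_comm, mul_inv_cancel₀ hμ0, mul_one]
      refine ⟨XP (VE Φ X s l ((card Φ X s : W.K) ^ X.dim * μ⁻¹)) (VE Φ X s (d μ) μ), ?_, ?_, ?_⟩
      · exact XP_le fun x hx y hy => L.xp_mem (by omega) (by rw [mul_comm, hμ]) hx hy
      · exact fun z hz x => corr_XP_mem (T := VE Φ X s (d μ) μ) (fun y hy => hy.2) hz x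
      · rw [finrank_XP, ← finrank_VE Φ hl.symm hμ, pow_two]
  choose N hN1 hN2 hN3 using h1
  have key : ∀ S : Finset W.K, finrank W.K (S.sup N : Submodule W.K (W.H (X.prod X))) =
      ∑ μ ∈ S, finrank W.K (VE Φ X s (d μ) μ) ^ 2 := by
    intro S
    induction S using Finset.induction with
    | empty => rw [Finset.sup_empty, finrank_bot, Finset.sum_empty]
    | insert a S ha ih =>
      rw [Finset.sup_insert, Finset.sum_insert ha, ← ih, ← hN3]
      have h2 : N a ⊓ S.sup N = ⊥ := by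
        rw [eq_bot_iff]
        rintro z ⟨hz, hz'⟩
        rw [Submodule.mem_bot]
        apply corr_inj
        apply LinearMap.ext
        intro x
        have h3 : W.corr z x ∈ (frob Φ X s).maxGenEigenspace a := by
          rw [hd]; exact hN2 a z hz x
        have h4 : W.corr z x ∈ ⨆ (ν : W.K) (_ : ν ≠ a), (frob Φ X s).maxGenEigenspace ν := by
          have h5 : ∀ T : Finset W.K, a ∉ T → ∀ z ∈ T.sup N, W.corr z x ∈
              ⨆ (ν : W.K) (_ : ν ≠ a), (frob Φ X s).maxGenEigenspace ν := by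
            intro T
            induction T using Finset.induction with
            | empty =>
              intro _ z hz
              rw [Finset.sup_empty, Submodule.mem_bot] at hz
              rw [hz, corr_zero]
              exact Submodule.zero_mem _
            | insert b T hb ihT =>
              intro haT z hz
              rw [Finset.sup_insert] at hz
              rw [Finset.mem_insert, not_or] at haT
              obtain ⟨y, hy, y', hy', rfl⟩ := Submodule.mem_sup.1 hz
              rw [corr_add]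
              refine Submodule.add_mem _ ?_ (ihT haT.2 y' hy')
              refine Submodule.mem_iSup_of_mem b (Submodule.mem_iSup_of_mem (Ne.symm haT.1) ?_)
              rw [hd]
              exact hN2 b y hy x
          exact h5 S ha z hz'
        have h6 := Module.End.independent_maxGenEigenspace (frob Φ X s) a
        exact Submodule.disjoint_def.1 h6 _ h3 h4
      have h7 := Submodule.finrank_sup_add_finrank_inf_eq (N a) (S.sup N)
      rw [h2, finrank_bot, add_zero] at h7
      exact h7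
  rw [← key]
  exact Submodule.finrank_mono (Finset.sup_le fun μ _ => hN1 μ)

/-- **The defect and the Jordan type of Frobenius.** -/
theorem Lev.defect_ge (L : Lev Φ X s s') (hp : 1 < p) (hRH : ∀ Z : 𝒱.Obj, RiemannHyp Φ σ Z)
    {δ : ℕ} (h : PoleDefect Φ σ (X.prod X) X.dim δ) :
    ∑ i ∈ Finset.range (2 * X.dim + 1), ∑ μ ∈ eigs Φ X s,
      (finrank W.K (VE Φ X s i μ) ^ 2 -
        ∑ j ∈ Finset.range (finrank W.K (W.H X)), cc Φ X s i μ j ^ 2) ≤ δ := by
  have h1 := L.kRank_le hp (hRH X)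
  have h2 := L.sum_sq_le hp (hRH X)
  rw [L.finrank_eq hp (hRH _) h] at h2
  have h3 : ∑ i ∈ Finset.range (2 * X.dim + 1), ∑ μ ∈ eigs Φ X s,
      (finrank W.K (VE Φ X s i μ) ^ 2 -
        ∑ j ∈ Finset.range (finrank W.K (W.H X)), cc Φ X s i μ j ^ 2) +
      ∑ i ∈ Finset.range (2 * X.dim + 1), ∑ μ ∈ eigs Φ X s,
        ∑ j ∈ Finset.range (finrank W.K (W.H X)), cc Φ X s i μ j ^ 2 =
      ∑ i ∈ Finset.range (2 * X.dim + 1), ∑ μ ∈ eigs Φ X s,
        finrank W.K (VE Φ X s i μ) ^ 2 := by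
    rw [← Finset.sum_add_distrib]
    refine Finset.sum_congr rfl fun i _ => ?_
    rw [← Finset.sum_add_distrib]
    refine Finset.sum_congr rfl fun μ _ => ?_
    exact Nat.sub_add_cancel (sum_cc_sq_le s i μ)
  omega

end

end Pool.Agent.Q55.Gp
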