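import Mathlib

/-!
# Linear algebra: Jordan types and trace forms on commuting operators
-/

set_option autoImplicit false
set_option linter.unusedSectionVars false

open Module

namespace Pool.Agent.Q55.Gp

variable {K H : Type*} [Field K] [AddCommGroup H] [Module K H]

section

variable (N : Module.End K H) (V : Submodule K H)

/-- The intersection of `V`, the kernel of `N` and the image of `N ^ k` on `V`. -/
def KN (k : ℕ) : Submodule K H where
  carrier := {x | x ∈ V ∧ N x = 0 ∧ ∃ y ∈ V, (N ^ k) y = x}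
  add_mem' := by
    rintro a b ⟨ha, ha0, y, hy, rfl⟩ ⟨hb, hb0, z, hz, rfl⟩
    exact ⟨V.add_mem ha hb, by rw [map_add, ha0, hb0, add_zero], y + z, V.add_mem hy hz,
      map_add _ _ _⟩
  zero_mem' := ⟨V.zero_mem, map_zero _, 0, V.zero_mem, map_zero _⟩
  smul_mem' := by
    rintro c x ⟨hx, hx0, y, hy, rfl⟩
    exact ⟨V.smul_mem c hx, by rw [map_smul, hx0, smul_zero], c • y, V.smul_mem c hy,
      map_smul _ _ _⟩

variable {N V}

lemma mem_KN {k : ℕ} {x : H} : x ∈ KN N V k ↔ x ∈ V ∧ N x = 0 ∧ ∃ y ∈ V, (N ^ k) y = x := Iff.rfl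

lemma KN_le {k : ℕ} : KN N V k ≤ V := fun _ hx => hx.1

lemma KN_succ_le (hV : ∀ x ∈ V, N x ∈ V) (k : ℕ) : KN N V (k + 1) ≤ KN N V k := by
  rintro x ⟨hx, hx0, y, hy, rfl⟩
  exact ⟨hx, hx0, N y, hV y hy, by rw [← Module.End.mul_apply, ← pow_succ]⟩

lemma KN_bot {n : ℕ} (hn : ∀ x ∈ V, (N ^ n) x = 0) : KN N V n = ⊥ := by
  rw [eq_bot_iff]
  rintro x ⟨-, -, y, hy, rfl⟩
  rw [Submodule.mem_bot, hn y hy]

/-- Operators commuting with `N` on `V`. -/
def CommOn (N : Module.End K H) (V : Submodule K H) (a : Module.End K H) : Prop :=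
  ∀ x ∈ V, a x ∈ V ∧ a (N x) = N (a x)

lemma CommOn.pow {a : Module.End K H} (ha : CommOn N V a) (hV : ∀ x ∈ V, N x ∈ V) (k : ℕ) :
    ∀ x ∈ V, a ((N ^ k) x) = (N ^ k) (a x) := by
  induction k with
  | zero => intro x _; rfl
  | succ k ih =>
    intro x hx
    rw [pow_succ, Module.End.mul_apply, Module.End.mul_apply, ih _ (hV x hx), (ha x hx).2]

lemma CommOn.comp {a b : Module.End K H} (ha : CommOn N V a) (hb : CommOn N V b) :
    CommOn N V (a * b) := fun x hx => ⟨(ha _ (hb x hx).1).1, by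
  rw [Module.End.mul_apply, Module.End.mul_apply, (hb x hx).2, (ha _ (hb x hx).1).2]⟩

lemma CommOn.KN {a : Module.End K H} (ha : CommOn N V a) (hV : ∀ x ∈ V, N x ∈ V) {k : ℕ} {x : H}
    (hx : x ∈ KN N V k) : a x ∈ Gp.KN N V k := by
  obtain ⟨h1, h2, y, hy, rfl⟩ := hx
  exact ⟨(ha _ h1).1, by rw [← (ha _ h1).2, h2, map_zero], a y, (ha y hy).1,
    (ha.pow hV k y hy).symm⟩

lemma pow_stays {w : Module.End K H} {V : Submodule K H} (hV : ∀ x ∈ V, w x ∈ V) (j : ℕ) {x : H}
    (hx : x ∈ V) : (w ^ j) x ∈ V := by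
  induction j with
  | zero => exact hx
  | succ j ih =>
    rw [pow_succ', Module.End.mul_apply]
    exact hV _ ih

/-- An operator commuting with `N` which strictly shifts the spaces `KN` is nilpotent. -/
theorem nil_of_shift (hV : ∀ x ∈ V, N x ∈ V) {n : ℕ} (hn : ∀ x ∈ V, (N ^ n) x = 0)
    {w : Module.End K H} (hw : CommOn N V w)
    (hs : ∀ k, ∀ x ∈ KN N V k, w x ∈ KN N V (k + 1)) : ∀ x ∈ V, (w ^ (n * n)) x = 0 := by
  have hwV : ∀ x ∈ V, w x ∈ V := fun x hx => (hw x hx).1
  have h1 : ∀ j, ∀ x ∈ KN N V 0, (w ^ j) x ∈ KN N V j := by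
    intro j
    induction j with
    | zero => intro x hx; exact hx
    | succ j ih =>
      intro x hx
      rw [pow_succ', Module.End.mul_apply]
      exact hs j _ (ih x hx)
  have h2 : ∀ x ∈ KN N V 0, (w ^ n) x = 0 := by
    intro x hx
    have := h1 n x hx
    rwa [KN_bot hn, Submodule.mem_bot] at this
  have hwn : CommOn N V (w ^ n) := by
    have : ∀ j, CommOn N V (w ^ j) := by
      intro j
      induction j with
      | zero => exact fun x hx => ⟨hx, rfl⟩
      | succ j ih => rw [pow_succ]; exact ih.comp hw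
    exact this n
  have key : ∀ j, ∀ x ∈ V, (N ^ j) x = 0 → (w ^ (n * j)) x = 0 := by
    intro j
    induction j with
    | zero =>
      intro x _ hx
      rw [pow_zero, Module.End.one_apply] at hx
      rw [hx, map_zero]
    | succ j ih =>
      intro x hx h0
      have h3 : (N ^ j) x ∈ KN N V 0 := by
        refine ⟨pow_stays hV j hx, ?_, (N ^ j) x, pow_stays hV j hx, rfl⟩
        rw [← Module.End.mul_apply, ← pow_succ', h0]
      have h4 : (N ^ j) ((w ^ n) x) = 0 := by
        rw [← hwn.pow hV j x hx, h2 _ h3]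
      have h5 := ih ((w ^ n) x) (pow_stays hwV n hx) h4
      rw [Nat.mul_succ, pow_add, Module.End.mul_apply, h5]
  exact fun x hx => key n x hx (hn x hx)

end

section

variable [Module.Finite K H]

/-- A retraction to a complement. -/
lemma exists_retract {S T : Submodule K H} (hST : S ≤ T) : ∃ (C : Submodule K H)
    (q : H →ₗ[K] C), C ≤ T ∧ finrank K C = finrank K T - finrank K S ∧ (∀ x : C, q x = x) ∧
      (∀ x ∈ S, q x = 0) ∧ ∀ x ∈ T, x - (q x : H) ∈ S := by
  obtain ⟨C', hC'⟩ := Submodule.exists_isCompl (S.comap T.subtype)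
  set C : Submodule K H := C'.map T.subtype with hC
  have hCT : C ≤ T := by
    rintro _ ⟨x, -, rfl⟩
    exact x.2
  have hdis : ∀ x ∈ C, x ∈ S → x = 0 := by
    rintro _ ⟨x, hx, rfl⟩ hxS
    have h1 := Submodule.disjoint_def.1 hC'.disjoint x hxS hx
    rw [h1]; rfl
  have hfin : finrank K C = finrank K T - finrank K S := by
    have h1 := Submodule.finrank_add_eq_of_isCompl hC'
    have h2 : finrank K (S.comap T.subtype) = finrank K S :=
      LinearEquiv.finrank_eq (Submodule.comapSubtypeEquivOfLe hST)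
    have h3 : finrank K C = finrank K C' :=
      (LinearEquiv.finrank_eq (Submodule.equivMapOfInjective _ T.subtype_injective C')).symm
    omega
  have hinj : Function.Injective (S.mkQ ∘ₗ C.subtype) := by
    refine (injective_iff_map_eq_zero _).2 fun x hx => ?_
    rw [LinearMap.comp_apply, Submodule.mkQ_apply, Submodule.Quotient.mk_eq_zero] at hx
    exact Subtype.ext (hdis _ x.2 hx)
  obtain ⟨r, hr⟩ := LinearMap.exists_leftInverse_of_injective (S.mkQ ∘ₗ C.subtype)
    (LinearMap.ker_eq_bot.2 hinj)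
  have hq1 : ∀ x : C, (r ∘ₗ S.mkQ) x = x := fun x => congrArg (fun F => F x) hr
  have hq2 : ∀ x ∈ S, (r ∘ₗ S.mkQ) x = 0 := by
    intro x hx
    rw [LinearMap.comp_apply, Submodule.mkQ_apply, (Submodule.Quotient.mk_eq_zero S).2 hx,
      map_zero]
  refine ⟨C, r ∘ₗ S.mkQ, hCT, hfin, hq1, hq2, fun x hx => ?_⟩
  have hx' : (⟨x, hx⟩ : T) ∈ S.comap T.subtype ⊔ C' := by rw [hC'.sup_eq_top]; trivial
  obtain ⟨a, ha, c, hc, hac⟩ := Submodule.mem_sup.1 hx'
  have hx2 : x = (a : H) + (c : H) := congrArg Subtype.val hac.symm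
  have hcC : (c : H) ∈ C := ⟨c, hc, rfl⟩
  have e1 : (r ∘ₗ S.mkQ) x = ⟨(c : H), hcC⟩ := by
    have h0 : (r ∘ₗ S.mkQ) (a : H) = 0 := hq2 _ ha
    rw [hx2, map_add, h0, zero_add]
    exact hq1 ⟨(c : H), hcC⟩
  rw [e1, hx2, add_sub_cancel_right]
  exact ha

variable {N : Module.End K H} {V : Submodule K H}

/-- The number of Jordan blocks of size `k + 1` of the nilpotent operator `N` on `V`. -/
noncomputable def cN (N : Module.End K H) (V : Submodule K H) (k : ℕ) : ℕ :=
  finrank K (KN N V k) - finrank K (KN N V (k + 1))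

/-- **Commuting operators modulo nilpotent ones.** There is a linear map from the operators to a
space of dimension `∑ c_k ^ 2` such that the products of the elements of the kernel with operators
that commute with `N` are nilpotent on `V`. -/
theorem exists_rho (hV : ∀ x ∈ V, N x ∈ V) {n : ℕ} (hn : ∀ x ∈ V, (N ^ n) x = 0) :
    ∃ (C : Fin n → Submodule K H) (ρ : Module.End K H →ₗ[K] ((k : Fin n) → Module.End K (C k))),
      finrank K ((k : Fin n) → Module.End K (C k)) = ∑ k ∈ Finset.range n, cN N V k ^ 2 ∧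
      ∀ a, CommOn N V a → ρ a = 0 → ∀ b, CommOn N V b → ∀ x ∈ V, ((a * b) ^ (n * n)) x = 0 := by
  choose C q hC1 hC2 hC3 hC4 hC5 using fun k => exists_retract (KN_succ_le hV k)
  set ρ : Module.End K H →ₗ[K] ((k : Fin n) → Module.End K (C k)) :=
    LinearMap.pi fun k => (LinearMap.llcomp K (C k) H (C k) (q k)) ∘ₗ
      (LinearMap.lcomp K H (C k).subtype) with hρ
  have hρa : ∀ a k (x : C (k : Fin n)), ρ a k x = q k (a x) := fun a k x => rfl
  refine ⟨fun k => C k, ρ, ?_, ?_⟩
  · rw [Module.finrank_pi_fintype, Finset.sum_range]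
    refine Finset.sum_congr rfl fun k _ => ?_
    rw [Module.finrank_linearMap, hC2, cN, pow_two]
  · intro a ha h0 b hb
    refine nil_of_shift hV hn (ha.comp hb) ?_
    have h1 : ∀ k, ∀ x ∈ KN N V k, a x ∈ KN N V (k + 1) := by
      intro k x hx
      by_cases hk : k < n
      · have h2 : q k (a (q k x)) = 0 := by
          have := congrArg (fun F => F ⟨k, hk⟩ (q k x)) h0
          exact this
        have hqx : ((q k x : C k) : H) ∈ KN N V k := hC1 k (q k x).2
        have h3 : a (q k x : H) ∈ KN N V (k + 1) := by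
          have h4 := hC5 k (a (q k x : H)) (ha.KN hV hqx)
          rw [h2, Submodule.coe_zero, sub_zero] at h4
          exact h4
        have h5 : a (x - (q k x : H)) ∈ KN N V (k + 1) := ha.KN hV (hC5 k x hx)
        have h6 : a x = a (x - (q k x : H)) + a (q k x : H) := by rw [← map_add, sub_add_cancel]
        rw [h6]
        exact Submodule.add_mem _ h5 h3
      · have h7 : KN N V k = ⊥ := KN_bot fun y hy => by
          obtain ⟨j, rfl⟩ := Nat.exists_eq_add_of_le (not_lt.1 hk)
          rw [add_comm, pow_add, Module.End.mul_apply, hn y hy, map_zero]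
        rw [h7, Submodule.mem_bot] at hx
        rw [hx, map_zero]
        exact Submodule.zero_mem _
    intro k x hx
    exact h1 k _ (hb.KN hV hx)

end

end Pool.Agent.Q55.Gp
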