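import Mathlib

/-!
# Linear algebra: Burnside's theorem on a subspace, generalised eigenspaces
-/

set_option autoImplicit false
set_option linter.unusedSectionVars false

open Module

namespace Pool.Agent.Q55.Gp

variable {K H : Type*} [Field K] [AddCommGroup H] [Module K H]

/-- **Burnside's theorem** on a subspace. -/
theorem burn [IsAlgClosed K] [Module.Finite K H] (A : Subalgebra K (Module.End K H))
    {V : Submodule K H} (hV : ∀ a ∈ A, ∀ x ∈ V, a x ∈ V)
    (hirr : ∀ U ≤ V, (∀ a ∈ A, ∀ x ∈ U, a x ∈ U) → U = ⊥ ∨ U = V)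
    {f : Module.End K H} (hf : ∀ x ∈ V, f x ∈ V) : ∃ a ∈ A, ∀ x ∈ V, a x = f x := by
  classical
  by_cases hV0 : V = ⊥
  · refine ⟨0, A.zero_mem, fun x hx => ?_⟩
    rw [hV0, Submodule.mem_bot] at hx
    rw [hx, map_zero, map_zero]
  let _ : Module A V :=
    { smul := fun a x => ⟨a.1 x.1, hV a.1 a.2 x.1 x.2⟩
      one_smul := fun x => Subtype.ext rfl
      mul_smul := fun a b x => Subtype.ext rfl
      smul_zero := fun a => Subtype.ext (map_zero _)
      smul_add := fun a x y => Subtype.ext (map_add _ _ _)
      add_smul := fun a b x => Subtype.ext rfl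
      zero_smul := fun x => Subtype.ext rfl }
  have hsm : ∀ (a : A) (x : V), ((a • x : V) : H) = a.1 x.1 := fun a x => rfl
  have _ : IsScalarTower K A V := ⟨fun c a x => Subtype.ext rfl⟩
  have hV1 : Nontrivial V := Submodule.nontrivial_iff_ne_bot.2 hV0
  have hsimple : IsSimpleModule A V := by
    rw [isSimpleModule_iff]
    refine { exists_pair_ne := ⟨⊥, ⊤, bot_ne_top⟩, eq_bot_or_eq_top := ?_ }
    intro U
    have h1 := hirr ((U.restrictScalars K).map V.subtype) (Submodule.map_subtype_le _ _) (by
      rintro a ha _ ⟨x, hx, rfl⟩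
      exact ⟨(⟨a, ha⟩ : A) • x, U.smul_mem _ hx, rfl⟩)
    rcases h1 with h1 | h1
    · left
      rw [eq_bot_iff]
      intro x hx
      have h2 : (x : H) ∈ (U.restrictScalars K).map V.subtype := ⟨x, hx, rfl⟩
      rw [h1, Submodule.mem_bot] at h2
      rw [Submodule.mem_bot]
      exact Subtype.ext h2
    · right
      rw [eq_top_iff]
      intro x _
      have h2 : (x : H) ∈ (U.restrictScalars K).map V.subtype := by rw [h1]; exact x.2
      obtain ⟨y, hy, hyx⟩ := h2
      have : y = x := Subtype.ext hyx
      rw [← this]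
      exact hy
  have hbij := IsSimpleModule.algebraMap_end_bijective_of_isAlgClosed (A := A) (V := V) K
  obtain ⟨s, hs⟩ := (Module.Finite.fg_top : (⊤ : Submodule K V).FG)
  obtain ⟨r, hr⟩ := jacobson_density (R := A) (M := V)
    { toFun := fun x => (⟨f x.1, hf x.1 x.2⟩ : V)
      map_add' := fun x y => Subtype.ext (map_add _ _ _)
      map_smul' := by
        intro φ v
        obtain ⟨c, rfl⟩ := hbij.2 φ
        refine Subtype.ext ?_
        change f (c • v.1) = c • f v.1
        rw [map_smul] } s
  refine ⟨r.1, r.2, fun x hx => ?_⟩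
  have h1 : ∀ y : V, r.1 y.1 = f y.1 := by
    intro y
    have hy : y ∈ Submodule.span K (s : Set V) := by rw [hs]; trivial
    induction hy using Submodule.span_induction with
    | mem y hy => exact (congrArg Subtype.val (hr y hy)).symm
    | zero => rw [Submodule.coe_zero, map_zero, map_zero]
    | add y z _ _ h1 h2 => rw [Submodule.coe_add, map_add, map_add, h1, h2]
    | smul c y _ h1 => rw [Submodule.coe_smul, map_smul, map_smul, h1]
  exact h1 ⟨x, hx⟩

/-- Products of commuting operators on generalised eigenvectors. -/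
lemma gen_mul {A B : Module.End K H} (h : Commute A B) {a b : K} {m n : ℕ} {z : H}
    (hA : ((A - a • 1) ^ m) z = 0) (hB : ((B - b • 1) ^ n) z = 0) :
    ((A * B - (a * b) • 1) ^ (m + n)) z = 0 := by
  have hA' : Commute (A - a • (1 : Module.End K H)) B :=
    h.sub_left ((Commute.one_left _).smul_left _)
  have hAB : Commute (A - a • (1 : Module.End K H)) (B - b • (1 : Module.End K H)) :=
    hA'.sub_right ((Commute.one_right _).smul_right _)
  set P : Module.End K H := (A - a • 1) * B with hP
  set Q : Module.End K H := a • (B - b • 1) with hQ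
  have e : A * B - (a * b) • (1 : Module.End K H) = P + Q := by
    rw [hP, hQ, sub_mul, smul_sub, smul_mul_assoc, one_mul, smul_smul]
    abel
  have hB' : Commute B (B - b • (1 : Module.End K H)) :=
    (Commute.refl _).sub_right ((Commute.one_right _).smul_right _)
  have hPQ : Commute P Q := ((hAB.mul_left hB').smul_right a)
  rw [e, hPQ.add_pow, LinearMap.sum_apply]
  refine Finset.sum_eq_zero fun k hk => ?_
  rw [Finset.mem_range] at hk
  rw [Module.End.mul_apply, Module.End.mul_apply]
  have key : ∀ w : H, w = (((m + n).choose k : ℕ) : Module.End K H) z →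
      (P ^ k) ((Q ^ (m + n - k)) w) = 0 := by
    intro w hw
    have hw' : w = ((m + n).choose k : ℕ) • z := by
      rw [hw]
      simp
    rw [hw', map_nsmul, map_nsmul]
    by_cases hkm : m ≤ k
    · have h1 : (P ^ k) ((Q ^ (m + n - k)) z) = (Q ^ (m + n - k)) ((P ^ k) z) := by
        rw [← Module.End.mul_apply, (hPQ.pow_pow _ _).eq, Module.End.mul_apply]
      have h2 : (P ^ k) z = 0 := by
        rw [hP, hA'.mul_pow, (hA'.pow_pow _ _).eq, Module.End.mul_apply]
        obtain ⟨j, rfl⟩ := Nat.exists_eq_add_of_le hkm
        rw [add_comm m j, pow_add (A - a • 1), Module.End.mul_apply, hA, map_zero, map_zero]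
      rw [h1, h2, map_zero, smul_zero]
    · obtain ⟨j, hj⟩ := Nat.exists_eq_add_of_le (show n ≤ m + n - k by omega)
      have h2 : (Q ^ (m + n - k)) z = 0 := by
        rw [hQ, smul_pow, LinearMap.smul_apply, hj, add_comm n j, pow_add (B - b • 1),
          Module.End.mul_apply, hB, map_zero, smul_zero]
      rw [h2, map_zero, smul_zero]
  exact key _ rfl

/-- Operators which commute with `g` up to nilpotents preserve the generalised eigenspaces. -/
lemma ad_gen {g : Module.End K H} {ad : Module.End K (Module.End K H)}
    (had : ∀ u, ad u = g * u - u * g) {u : Module.End K H} {N : ℕ} (hN : (ad ^ N) u = 0)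
    {μ : K} {x : H} (hx : x ∈ g.maxGenEigenspace μ) : u x ∈ g.maxGenEigenspace μ := by
  obtain ⟨m, hm⟩ := (Module.End.mem_maxGenEigenspace _ _ _).1 hx
  have key : ∀ (N : ℕ) (u : Module.End K H), (ad ^ N) u = 0 → ∀ (m : ℕ) (x : H),
      ((g - μ • 1) ^ m) x = 0 → ((g - μ • 1) ^ (m + N)) (u x) = 0 := by
    intro N
    induction N with
    | zero =>
      intro u hu m x _
      rw [pow_zero, Module.End.one_apply] at hu
      rw [hu, LinearMap.zero_apply, map_zero]
    | succ N ihN =>
      intro u hu m
      have hu' : (ad ^ N) (ad u) = 0 := by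
        rw [pow_succ] at hu
        exact hu
      induction m with
      | zero =>
        intro x hx
        rw [pow_zero, Module.End.one_apply] at hx
        rw [hx, map_zero, map_zero]
      | succ m ihm =>
        intro x hx
        have h1 : (g - μ • (1 : Module.End K H)) (u x) = (ad u) x + u ((g - μ • 1) x) := by
          rw [had]
          simp only [LinearMap.sub_apply, Module.End.mul_apply, LinearMap.smul_apply,
            Module.End.one_apply, map_sub, map_smul]
          abel
        have h2 : ((g - μ • (1 : Module.End K H)) ^ m) ((g - μ • 1) x) = 0 := by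
          rw [← Module.End.mul_apply, ← pow_succ]
          exact hx
        have h3 := ihm _ h2
        have h4 := ihN (ad u) hu' (m + 1) x hx
        rw [show m + 1 + (N + 1) = (m + N + 1) + 1 by ring, pow_succ, Module.End.mul_apply, h1,
          map_add]
        rw [show m + (N + 1) = m + N + 1 by ring] at h3
        rw [show m + 1 + N = m + N + 1 by ring] at h4
        rw [h3, h4, add_zero]
  exact (Module.End.mem_maxGenEigenspace _ _ _).2 ⟨m + N, key N u hN m x hm⟩

/-- The projector to a generalised eigenspace is a polynomial. -/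
lemma exists_poly [IsAlgClosed K] [Module.Finite K H] (g : Module.End K H) (μ : K) :
    ∃ P : Polynomial K, (∀ x ∈ g.maxGenEigenspace μ, (Polynomial.aeval g P) x = x) ∧
      ∀ ν ≠ μ, ∀ x ∈ g.maxGenEigenspace ν, (Polynomial.aeval g P) x = 0 := by
  classical
  set n := finrank K H with hn
  set C := g.charpoly with hC
  -- split off the root `μ`
  have hkill : ∀ ν, ∀ x ∈ g.maxGenEigenspace ν, ((g - ν • (1 : Module.End K H)) ^ n) x = 0 := by
    intro ν x hx
    rw [Module.End.maxGenEigenspace_eq_genEigenspace_finrank, Module.End.mem_genEigenspace_nat,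
      LinearMap.mem_ker] at hx
    exact hx
  have hCne : C ≠ 0 := (LinearMap.charpoly_monic g).ne_zero
  obtain ⟨D, hD, hnd⟩ := Polynomial.exists_eq_pow_rootMultiplicity_mul_and_not_dvd C hCne μ
  have hcop : IsCoprime ((Polynomial.X - Polynomial.C μ) ^ n) D := by
    apply IsCoprime.pow_left
    exact (Polynomial.irreducible_X_sub_C μ).coprime_iff_not_dvd.2 hnd
  obtain ⟨a, b, hab⟩ := hcop
  have hX : ∀ ν : K, Polynomial.aeval g (Polynomial.X - Polynomial.C ν : Polynomial K) =
      g - ν • (1 : Module.End K H) := by
    intro ν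
    rw [map_sub, Polynomial.aeval_X, Polynomial.aeval_C, Algebra.algebraMap_eq_smul_one]
  refine ⟨b * D, fun x hx => ?_, fun ν hν x hx => ?_⟩
  · have h1 := congrArg (fun P => (Polynomial.aeval g P) x) hab
    simp only [map_add, map_mul, map_pow, hX, map_one] at h1
    rw [LinearMap.add_apply, Module.End.mul_apply, hkill μ x hx, map_zero, zero_add] at h1
    rw [map_mul]
    exact h1
  · -- `D` kills the other generalised eigenspaces
    have h1 : (Polynomial.aeval g C) x = 0 := by
      rw [hC, LinearMap.aeval_self_charpoly, LinearMap.zero_apply]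
    have h2 : ((g - μ • (1 : Module.End K H)) ^ (Polynomial.rootMultiplicity μ C))
        ((Polynomial.aeval g D) x) = 0 := by
      rw [hD, map_mul, map_pow, hX] at h1
      exact h1
    have h3 : (Polynomial.aeval g D) x ∈ g.maxGenEigenspace μ :=
      (Module.End.mem_maxGenEigenspace _ _ _).2 ⟨_, h2⟩
    have h4 : (Polynomial.aeval g D) x ∈ g.maxGenEigenspace ν := by
      refine (Module.End.mem_maxGenEigenspace _ _ _).2 ⟨n, ?_⟩
      have hc : Commute ((g - ν • (1 : Module.End K H)) ^ n) (Polynomial.aeval g D) := by
        rw [← hX ν, ← map_pow]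
        exact (Commute.all _ _).map (Polynomial.aeval g)
      rw [← Module.End.mul_apply, hc.eq, Module.End.mul_apply, hkill ν x hx, map_zero]
    have h5 : Disjoint (g.maxGenEigenspace μ) (g.maxGenEigenspace ν) :=
      (Module.End.independent_maxGenEigenspace g).pairwiseDisjoint hν.symm
    rw [map_mul, Module.End.mul_apply, Submodule.disjoint_def.1 h5 _ h3 h4, map_zero]

end Pool.Agent.Q55.Gp
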