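import Mathlib

/-!
# The rank of a bilinear form on a subspace and orthogonal subspaces
-/

set_option autoImplicit false

open Module

namespace Pool.Agent.Q55.Gp

variable {K H : Type*} [Field K] [AddCommGroup H] [Module K H]

/-- The restriction of a bilinear form to a pair of subspaces. -/
noncomputable def res (B : H →ₗ[K] H →ₗ[K] K) (S T : Submodule K H) : S →ₗ[K] Dual K T :=
  (LinearMap.lcomp K K T.subtype) ∘ₗ B ∘ₗ S.subtype

lemma res_apply (B : H →ₗ[K] H →ₗ[K] K) (S T : Submodule K H) (x : S) (y : T) :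
    res B S T x y = B x y := rfl

variable [Module.Finite K H]

/-- Dimensions of orthogonal subspaces. -/
lemma perp_le {B : H →ₗ[K] H →ₗ[K] K} {G S T : Submodule K H} (hS : S ≤ G) (hT : T ≤ G)
    (hG : ∀ x ∈ G, (∀ y ∈ G, B x y = 0) → x = 0) (h : ∀ x ∈ S, ∀ y ∈ T, B x y = 0) :
    finrank K S + finrank K T ≤ finrank K G := by
  set T' : Submodule K G := T.comap G.subtype with hT'
  have e1 : finrank K T' = finrank K T :=
    LinearEquiv.finrank_eq (Submodule.comapSubtypeEquivOfLe hT)
  have h1 : finrank K T' + finrank K T'.dualAnnihilator = finrank K G :=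
    Subspace.finrank_add_finrank_dualAnnihilator_eq T'
  set φ : S →ₗ[K] Dual K G := (LinearMap.lcomp K K G.subtype) ∘ₗ B ∘ₗ S.subtype with hφ
  have hφm : ∀ x, φ x ∈ T'.dualAnnihilator := by
    intro x
    rw [Submodule.mem_dualAnnihilator]
    intro y hy
    exact h x.1 x.2 y.1 hy
  have hinj : Function.Injective (φ.codRestrict T'.dualAnnihilator hφm) := by
    refine (injective_iff_map_eq_zero _).2 fun x hx => ?_
    apply Subtype.ext
    apply hG _ (hS x.2)
    intro y hy
    have h2 : φ x = 0 := congrArg Subtype.val hx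
    exact congrArg (fun F => F ⟨y, hy⟩) h2
  have h3 := LinearMap.finrank_le_finrank_of_injective hinj
  omega

/-- **The rank of the form on `A` and subspaces orthogonal to `A`.** -/
theorem rank_le {B : H →ₗ[K] H →ₗ[K] K} {G A N R : Submodule K H} (hA : A ≤ G) (hN : N ≤ G)
    (hR : R ≤ G) (hG : ∀ x ∈ G, (∀ y ∈ G, B x y = 0) → x = 0)
    (hNA : ∀ x ∈ N, ∀ y ∈ A, B x y = 0) (hRA : ∀ x ∈ R, ∀ y ∈ A, B x y = 0)
    (hRN : ∀ x ∈ R, ∀ y ∈ N, B x y = 0) :
    finrank K (LinearMap.range (res B A A)) + finrank K N + finrank K R ≤ finrank K G := by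
  have h1 : finrank K R + finrank K (A ⊔ N : Submodule K H) ≤ finrank K G := by
    refine perp_le hR (sup_le hA hN) hG fun x hx y hy => ?_
    obtain ⟨a, ha, n, hn, rfl⟩ := Submodule.mem_sup.1 hy
    rw [map_add, hRA x hx a ha, hRN x hx n hn, add_zero]
  have h2 := Submodule.finrank_sup_add_finrank_inf_eq A N
  have h3 := LinearMap.finrank_range_add_finrank_ker (res B A A)
  have h4 : finrank K (A ⊓ N : Submodule K H) ≤ finrank K (LinearMap.ker (res B A A)) := by
    set ψ : (A ⊓ N : Submodule K H) →ₗ[K] LinearMap.ker (res B A A) :=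
      (Submodule.inclusion inf_le_left).codRestrict _ (by
        rintro ⟨x, hx⟩
        rw [LinearMap.mem_ker]
        apply LinearMap.ext
        rintro ⟨y, hy⟩
        exact hNA x hx.2 y hy) with hψ
    refine LinearMap.finrank_le_finrank_of_injective (f := ψ) ?_
    intro x y hxy
    have := congrArg (fun z : LinearMap.ker (res B A A) => ((z : A) : H)) hxy
    exact Subtype.ext this
  omega

end Pool.Agent.Q55.Gp
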