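import Pool.Agent.Q55.Gp.Lin
import Pool.Agent.Q55.Gp.Rk
import Pool.Agent.TH132.P.TateT
import Pool.Agent.Y133.Half.TateSys
import Pool.Agent.W552.TateB

/-!
# Generalised eigenspaces of the Frobenius endomorphisms and the trace form
-/

set_option autoImplicit false

open CategoryTheory AlgebraicGeometry
open scoped TensorProduct

universe u v

namespace Pool.Agent.Q55.Gp

open Module
open Pool.Agent.H914 Pool.Agent.H914.VarClass Pool.Agent.H914.VarClass.Obj
  Pool.Agent.H914.WeilCohomology Pool.Agent.W534 Pool.Agent.Y133.Half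

variable {k : Type u} [Field k] {𝒱 : VarClass k} {ops : CycleOps 𝒱}
  {W : WeilCohomology.{u, v} ops} {X Y Z : 𝒱.Obj} {p : ℕ}

/-- The generalised eigenspace of the Frobenius endomorphism on `H^i(Z)` for the eigenvalue `μ`. -/
noncomputable def VE (Φ : FrobSystem W p) (Z : 𝒱.Obj) (s i : ℕ) (μ : W.K) :
    Submodule W.K (W.H Z) :=
  (frob Φ Z s).maxGenEigenspace μ ⊓ W.gr Z i

variable (Φ : FrobSystem W p)

lemma mem_VE {s i : ℕ} {μ : W.K} {x : W.H Z} : x ∈ VE Φ Z s i μ ↔
    (∃ n : ℕ, ((frob Φ Z s - μ • (1 : Module.End W.K (W.H Z))) ^ n) x = 0) ∧ x ∈ W.gr Z i := by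
  rw [VE, Submodule.mem_inf, Module.End.mem_maxGenEigenspace]

lemma genTate_eq_VE (s j : ℕ) : genTate Φ Z s j = VE Φ Z s (2 * j) ((card Φ Z s : W.K) ^ j) := rfl

/-- The trace form is nondegenerate on the generalised eigenspaces. -/
lemma VE_nondeg {s i l : ℕ} {μ μ' : W.K} (hjl : i + l = 2 * Z.dim)
    (hμ : μ * μ' = (card Φ Z s : W.K) ^ Z.dim) {x : W.H Z} (hx : x ∈ VE Φ Z s i μ)
    (h : ∀ y ∈ VE Φ Z s l μ', W.tr Z (x * y) = 0) : x = 0 := by
  obtain ⟨⟨n, hn⟩, hxg⟩ := (mem_VE Φ).1 hx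
  obtain ⟨x', hx'⟩ := frob_pow_surjective Φ s n x
  set A := frob Φ Z s - μ • 1 with hA
  set B := frob Φ Z s - μ' • 1 with hB
  have hx0 : (A ^ n) x' = 0 := by
    apply frob_pow_injective Φ s n
    have hc : Commute (frob Φ Z s) A :=
      (Commute.refl _).sub_right ((Commute.one_right _).smul_right _)
    rw [map_zero, ← Module.End.mul_apply, (hc.pow_pow n n).eq, Module.End.mul_apply, hx', hn]
  -- the orthogonality on the image
  have himg : ∀ u, W.tr Z (x * (B ^ n) u) = 0 := by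
    intro u
    rw [← hx', tr_adj_pow Φ hμ, ← hA, hx0, zero_mul, map_zero, mul_zero]
  have hgr : ∀ b ∈ W.gr Z l, W.tr Z (x * b) = 0 := by
    intro b hb
    have hBgr : ∀ y ∈ W.gr Z l, B y ∈ W.gr Z l := by
      intro y hy
      rw [hB, LinearMap.sub_apply, LinearMap.smul_apply, Module.End.one_apply]
      exact Submodule.sub_mem _ (W.map_mem _ hy) (Submodule.smul_mem _ _ hy)
    set g : Module.End W.K (W.gr Z l) := B.restrict hBgr with hg
    have hgp : ∀ (m : ℕ) (y : W.gr Z l), (((g ^ m) y : W.gr Z l) : W.H Z) =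
        (B ^ m) (y : W.H Z) := by
      intro m
      induction m with
      | zero => intro y; rfl
      | succ m ih =>
        intro y
        rw [pow_succ', pow_succ', Module.End.mul_apply, Module.End.mul_apply, ← ih]
        rfl
    have hcompl := LinearMap.isCompl_iSup_ker_pow_iInf_range_pow g
    have hmem : (⟨b, hb⟩ : W.gr Z l) ∈ (⨆ m, LinearMap.ker (g ^ m)) ⊔
        ⨅ m, LinearMap.range (g ^ m) := by
      rw [hcompl.sup_eq_top]
      trivial
    obtain ⟨b0, hb0, b1, hb1, hbb⟩ := Submodule.mem_sup.1 hmem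
    have hdir : Directed (· ≤ ·) (fun m => LinearMap.ker (g ^ m)) := by
      apply Monotone.directed_le
      intro m m' hmm y hy
      rw [LinearMap.mem_ker] at hy ⊢
      obtain ⟨r, rfl⟩ := Nat.exists_eq_add_of_le hmm
      rw [add_comm, pow_add, Module.End.mul_apply, hy, map_zero]
    obtain ⟨m, hm⟩ := (Submodule.mem_iSup_of_directed _ hdir).1 hb0
    rw [LinearMap.mem_ker] at hm
    obtain ⟨u, hu⟩ := (Submodule.mem_iInf _).1 hb1 n
    have e1 : W.tr Z (x * (b0 : W.H Z)) = 0 := by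
      apply h
      refine (mem_VE Φ).2 ⟨⟨m, ?_⟩, b0.2⟩
      rw [← hB, ← hgp, hm]
      rfl
    have e2 : W.tr Z (x * (b1 : W.H Z)) = 0 := by
      rw [← hu, hgp]
      exact himg _
    have e3 : b = (b0 : W.H Z) + (b1 : W.H Z) := congrArg Subtype.val hbb.symm
    rw [e3, mul_add, map_add, e1, e2, add_zero]
  apply W.nondeg
  intro b
  refine gr_induction (W.isInternal Z) (p := fun b => W.tr Z (x * b) = 0) ?_ ?_ b
  · intro i' b hb
    by_cases hi : i' = l
    · subst hi
      exact hgr b hb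
    · exact W.tr_eq_zero (W.mul_mem hxg hb) (by omega)
  · intro a b ha hb
    rw [mul_add, map_add, ha, hb, add_zero]

/-- The trace form as a bilinear map. -/
noncomputable def trB (W : WeilCohomology.{u, v} ops) (Z : 𝒱.Obj) :
    W.H Z →ₗ[W.K] W.H Z →ₗ[W.K] W.K :=
  LinearMap.mk₂ W.K (fun x y => W.tr Z (x * y))
    (fun x y z => by rw [add_mul, map_add]) (fun c x y => by rw [smul_mul_assoc, map_smul])
    (fun x y z => by rw [mul_add, map_add]) (fun c x y => by rw [mul_smul_comm, map_smul])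

lemma trB_apply (x y : W.H Z) : trB W Z x y = W.tr Z (x * y) := rfl

/-- The subspace of `T` orthogonal to `U`. -/
noncomputable def perp (W : WeilCohomology.{u, v} ops) {Z : 𝒱.Obj} (T U : Submodule W.K (W.H Z)) :
    Submodule W.K (W.H Z) where
  carrier := {x | x ∈ T ∧ ∀ u ∈ U, W.tr Z (x * u) = 0}
  add_mem' := fun ha hb => ⟨Submodule.add_mem _ ha.1 hb.1, fun u hu => by
    rw [add_mul, map_add, ha.2 u hu, hb.2 u hu, add_zero]⟩
  zero_mem' := ⟨Submodule.zero_mem _, fun u _ => by rw [zero_mul, map_zero]⟩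
  smul_mem' := fun c x hx => ⟨Submodule.smul_mem _ _ hx.1, fun u hu => by
    rw [smul_mul_assoc, map_smul, hx.2 u hu, smul_zero]⟩

lemma mem_perp {T U : Submodule W.K (W.H Z)} {x : W.H Z} :
    x ∈ perp W T U ↔ x ∈ T ∧ ∀ u ∈ U, W.tr Z (x * u) = 0 := Iff.rfl

lemma finrank_perp (T U : Submodule W.K (W.H Z)) :
    finrank W.K T ≤ finrank W.K (perp W T U) + finrank W.K U := by
  set φ : T →ₗ[W.K] Dual W.K U := res (trB W Z) T U with hφ
  have h1 := LinearMap.finrank_range_add_finrank_ker φ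
  have h2 : finrank W.K (LinearMap.range φ) ≤ finrank W.K U := by
    refine (Submodule.finrank_le _).trans ?_
    rw [Subspace.dual_finrank_eq]
  have h3 : finrank W.K (LinearMap.ker φ) ≤ finrank W.K (perp W T U) := by
    set ψ : LinearMap.ker φ →ₗ[W.K] perp W T U :=
      (T.subtype ∘ₗ (LinearMap.ker φ).subtype).codRestrict _ (by
        rintro ⟨⟨x, hx⟩, h⟩
        refine ⟨hx, fun u hu => ?_⟩
        rw [LinearMap.mem_ker] at h
        exact congrArg (fun F => F ⟨u, hu⟩) h) with hψ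
    refine LinearMap.finrank_le_finrank_of_injective (f := ψ) ?_
    intro x y hxy
    exact Subtype.ext (Subtype.ext (congrArg (fun z : perp W T U => (z : W.H Z)) hxy))
  omega

lemma finrank_VE_le {s i l : ℕ} {μ μ' : W.K} (hjl : i + l = 2 * Z.dim)
    (hμ : μ * μ' = (card Φ Z s : W.K) ^ Z.dim) :
    finrank W.K (VE Φ Z s i μ) ≤ finrank W.K (VE Φ Z s l μ') := by
  set φ : VE Φ Z s i μ →ₗ[W.K] Dual W.K (VE Φ Z s l μ') := res (trB W Z) _ _ with hφ
  have hinj : Function.Injective φ := by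
    refine (injective_iff_map_eq_zero _).2 ?_
    rintro ⟨a, ha⟩ h0
    apply Subtype.ext
    apply VE_nondeg Φ hjl hμ ha
    intro w hw
    exact congrArg (fun F => F ⟨w, hw⟩) h0
  have h1 := LinearMap.finrank_le_finrank_of_injective hinj
  rwa [Subspace.dual_finrank_eq] at h1

lemma finrank_VE {s i l : ℕ} {μ μ' : W.K} (hjl : i + l = 2 * Z.dim)
    (hμ : μ * μ' = (card Φ Z s : W.K) ^ Z.dim) :
    finrank W.K (VE Φ Z s i μ) = finrank W.K (VE Φ Z s l μ') :=
  le_antisymm (finrank_VE_le Φ hjl hμ) (finrank_VE_le Φ (by omega) (by rw [mul_comm, hμ]))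

/-- Every functional on a generalised eigenspace is given by the dual eigenspace. -/
lemma exists_rep {s i l : ℕ} {μ μ' : W.K} (hjl : i + l = 2 * Z.dim)
    (hμ : μ * μ' = (card Φ Z s : W.K) ^ Z.dim) (f : Dual W.K (VE Φ Z s l μ')) :
    ∃ x ∈ VE Φ Z s i μ, ∀ y : VE Φ Z s l μ', W.tr Z (x * y) = f y := by
  set φ : VE Φ Z s i μ →ₗ[W.K] Dual W.K (VE Φ Z s l μ') := res (trB W Z) _ _ with hφ
  have hinj : Function.Injective φ := by
    refine (injective_iff_map_eq_zero _).2 ?_
    rintro ⟨a, ha⟩ h0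
    apply Subtype.ext
    apply VE_nondeg Φ hjl hμ ha
    intro w hw
    exact congrArg (fun F => F ⟨w, hw⟩) h0
  have hsurj : Function.Surjective φ := by
    refine (LinearMap.injective_iff_surjective_of_finrank_eq_finrank ?_).1 hinj
    rw [Subspace.dual_finrank_eq, finrank_VE Φ hjl hμ]
  obtain ⟨x, hx⟩ := hsurj f
  exact ⟨x, x.2, fun y => congrArg (fun F => F y) hx⟩

/-! ## External products of subspaces -/

/-- The external product of two subspaces. -/
noncomputable def xpMap (S : Submodule W.K (W.H X)) (T : Submodule W.K (W.H Y)) :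
    S ⊗[W.K] T →ₗ[W.K] W.H (X.prod Y) :=
  (kunnethMap (W.map (fst X Y)) (W.map (snd X Y))) ∘ₗ TensorProduct.map S.subtype T.subtype

lemma xpMap_tmul (S : Submodule W.K (W.H X)) (T : Submodule W.K (W.H Y)) (x : S) (y : T) :
    xpMap S T (x ⊗ₜ y) = xp W (x : W.H X) (y : W.H Y) := rfl

/-- The span of the external products of the elements of two subspaces. -/
noncomputable def XP (S : Submodule W.K (W.H X)) (T : Submodule W.K (W.H Y)) :
    Submodule W.K (W.H (X.prod Y)) :=
  LinearMap.range (xpMap S T)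

lemma mem_XP {S : Submodule W.K (W.H X)} {T : Submodule W.K (W.H Y)} {x : W.H X} {y : W.H Y}
    (hx : x ∈ S) (hy : y ∈ T) : xp W x y ∈ XP S T :=
  ⟨(⟨x, hx⟩ : S) ⊗ₜ (⟨y, hy⟩ : T), rfl⟩

lemma XP_ind {S : Submodule W.K (W.H X)} {T : Submodule W.K (W.H Y)}
    {q : W.H (X.prod Y) → Prop} (h0 : q 0) (hadd : ∀ a b, q a → q b → q (a + b))
    (h : ∀ x ∈ S, ∀ y ∈ T, q (xp W x y)) {z : W.H (X.prod Y)} (hz : z ∈ XP S T) : q z := by
  obtain ⟨t, rfl⟩ := hz
  induction t using TensorProduct.induction_on with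
  | zero => rw [map_zero]; exact h0
  | tmul x y => rw [xpMap_tmul]; exact h x x.2 y y.2
  | add a b ha hb => rw [map_add]; exact hadd _ _ ha hb

lemma XP_le {S : Submodule W.K (W.H X)} {T : Submodule W.K (W.H Y)}
    {G : Submodule W.K (W.H (X.prod Y))} (h : ∀ x ∈ S, ∀ y ∈ T, xp W x y ∈ G) :
    XP S T ≤ G := fun _ hz =>
  XP_ind (q := fun z => z ∈ G) G.zero_mem (fun _ _ => G.add_mem) h hz

lemma finrank_XP (S : Submodule W.K (W.H X)) (T : Submodule W.K (W.H Y)) :
    finrank W.K (XP S T) = finrank W.K S * finrank W.K T := by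
  rw [← Module.finrank_tensorProduct, XP]
  refine LinearMap.finrank_range_of_inj ?_
  have h1 : Function.Injective (TensorProduct.map S.subtype T.subtype) := by
    exact TensorProduct.map_injective_of_flat_flat _ _ S.subtype_injective T.subtype_injective
  exact (W.kunneth X Y).1.comp h1

/-- The span of the products of `x` and the elements orthogonal to `c`. -/
lemma XP_orth {S : Submodule W.K (W.H X)} {T : Submodule W.K (W.H Y)} {c : W.H (X.prod Y)}
    (h : ∀ x ∈ S, ∀ y ∈ T, W.tr _ (xp W x y * c) = 0) {z : W.H (X.prod Y)} (hz : z ∈ XP S T) :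
    W.tr _ (z * c) = 0 :=
  XP_ind (q := fun z => W.tr _ (z * c) = 0) (by rw [zero_mul, map_zero])
    (fun a b ha hb => by rw [add_mul, map_add, ha, hb, add_zero]) h hz

lemma XP_orth' {S : Submodule W.K (W.H X)} {T : Submodule W.K (W.H Y)} {c : W.H (X.prod Y)}
    (h : ∀ x ∈ S, ∀ y ∈ T, W.tr _ (c * xp W x y) = 0) {z : W.H (X.prod Y)} (hz : z ∈ XP S T) :
    W.tr _ (c * z) = 0 :=
  XP_ind (q := fun z => W.tr _ (c * z) = 0) (by rw [mul_zero, map_zero])
    (fun a b ha hb => by rw [mul_add, map_add, ha, hb, add_zero]) h hz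

/-- The trace form on external products. -/
lemma tr_xp_xp {b c : ℕ} {x x' : W.H X} {y y' : W.H Y}
    (hy : y ∈ W.gr Y b) (hx' : x' ∈ W.gr X c)
    (h : W.tr X (x * x') = 0 ∨ W.tr Y (y * y') = 0) :
    W.tr _ (xp W x y * xp W x' y') = 0 := by
  rw [xp_mul _ _ _ _ (PH.of hy) (PH.of hx'), map_smul, tr_xp]
  rcases h with h | h
  · rw [h, zero_mul, smul_zero]
  · rw [h, mul_zero, smul_zero]

/-- The trace form of a correspondence and an external product. -/
lemma tr_mul_xp (c : W.H (X.prod Y)) (a : W.H X) (b : W.H Y) :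
    W.tr (X.prod Y) (c * xp W a b) = W.tr Y (W.corr c a * b) := by
  rw [corr_apply, W.tr_push, mul_assoc]
  rfl

end Pool.Agent.Q55.Gp
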