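import Pool.Agent.Q55.Gp.Main

/-!
# The defects of `X` and of `X × X`
-/

set_option autoImplicit false

open CategoryTheory AlgebraicGeometry
open scoped TensorProduct

universe u v

namespace Pool.Agent.Q55.Gp

open Module
open Pool.Agent.H914 Pool.Agent.H914.VarClass Pool.Agent.H914.VarClass.Obj
  Pool.Agent.H914.WeilCohomology Pool.Agent.W534 Pool.Agent.Y133.Half Pool.Agent.W552
  Pool.Agent.H281R3.HT Pool.Agent.TH132.P Pool.Agent.H447
open Pool.Agent.Y163 (cl_divPow_fund divPow_fund_mem)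

variable {k : Type u} [Field k] {𝒱 : VarClass k} {ops : CycleOps 𝒱}
  {W : WeilCohomology.{u, v} ops} {X Y Z : 𝒱.Obj} {p : ℕ} {Φ : FrobSystem W p} {s s' : ℕ}
  {σ : W.K →+* ℂ}

/-- The spaces of the algebraic classes are stable. -/
lemma stb_span (j : ℕ) : Stb (spanCycles W X (j : ℕ)) := by
  intro u hu x hx
  obtain ⟨h1, h2⟩ := mem_AA.1 hu
  exact algSpan_gr (Sys.Op.apply (T := algSys W) (fun _ => le_rfl) h1 (span_le_alg hx))
    (h2 _ x (Pool.Agent.H914.span_gr hx))

/-- The spaces of the numerically trivial algebraic classes are stable. -/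
lemma stb_num {j l : ℕ} :
    Stb (perp W (spanCycles W X (j : ℕ)) (spanCycles W X (l : ℕ))) := by
  intro u hu x hx
  obtain ⟨c, hc, rfl⟩ := exists_of_mem_AA hu
  have hev : c ∈ PH W (X.prod X) 0 := PH.of' (by omega) (Pool.Agent.H914.span_gr hc)
  refine ⟨stb_span j _ hu x hx.1, fun w hw => ?_⟩
  rw [tr_corr' hev]
  exact hx.2 _ (stb_span l _ (corr_mem_AA (swap_span hc)) w hw)

lemma xp_span {j l : ℕ} {x : W.H X} {y : W.H Y} (hx : x ∈ spanCycles W X (j : ℕ))
    (hy : y ∈ spanCycles W Y (l : ℕ)) : xp W x y ∈ algSpan W (X.prod Y) :=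
  (algSys W).mul ((algSys W).map _ (span_le_alg hx)) ((algSys W).map _ (span_le_alg hy))

/-- If the conjectures hold in codimension `j` then the space of the Tate classes is
irreducible. -/
theorem irr_of_settled {j : ℕ} (hj : j ≤ X.dim) (h1 : SemisimpleTateIn Φ X j)
    (h2 : HomEqNumIn W X j) (hs : 0 < s) :
    Irr Φ X s (2 * j) ((card Φ X s : W.K) ^ j) := by
  obtain ⟨l, hl⟩ := Nat.exists_eq_add_of_le hj
  intro U hU hS
  have hle : VE Φ X s (2 * j) ((card Φ X s : W.K) ^ j) ≤ spanCycles W X (j : ℕ) := h1 s hs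
  by_cases h0 : U = ⊥
  · exact Or.inl h0
  right
  obtain ⟨u, hu, hu0⟩ := (Submodule.ne_bot_iff U).1 h0
  have hinj := pair_injective hl.symm h2
  obtain ⟨w, hw⟩ : ∃ w : spanCycles W X (l : ℕ), W.tr X (u * w) ≠ 0 := by
    by_contra hcon
    push Not at hcon
    apply hu0
    have h3 : (⟨u, hle (hU hu)⟩ : spanCycles W X (j : ℕ)) = 0 := by
      apply hinj
      rw [map_zero]
      exact LinearMap.ext fun w => hcon w
    exact congrArg Subtype.val h3
  refine le_antisymm hU fun v hv => ?_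
  have hc : xp W (w : W.H X) v ∈ spanCycles W (X.prod X) (X.dim : ℕ) := by
    refine algSpan_gr (xp_span w.2 (hle hv)) ?_
    have h3 := W.mul_mem (W.map_mem (fst X X) (Pool.Agent.H914.span_gr w.2))
      (W.map_mem (snd X X) (Pool.Agent.H914.span_gr (hle hv)))
    rw [hl, show 2 * (j + l) = 2 * l + 2 * j by ring]
    exact h3
  have h4 := hS _ (corr_mem_AA hc) u hu
  have hug : u ∈ W.gr X (2 * j) := (hU hu).2
  rw [corr_xp _ (PH.of hv.2) (PH.of hug)] at h4
  have h5 : (-1 : W.K) ^ (2 * j * (2 * j)) * W.tr X ((w : W.H X) * u) ≠ 0 := by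
    refine mul_ne_zero (pow_ne_zero _ (by norm_num)) ?_
    rw [← W.even_comm hug]
    exact hw
  have h6 := U.smul_mem (((-1 : W.K) ^ (2 * j * (2 * j)) * W.tr X ((w : W.H X) * u))⁻¹) h4
  rwa [smul_smul, inv_mul_cancel₀ h5, one_smul] at h6

section

variable {D : X.Cycles} (hD : X.IsCyc 1 D)
  (he : X.V.degCycle (divPow ops D X.dim X.V.fundCycle) ≠ 0)

include hD he

lemma tr_pow_ne {j l : ℕ} (hjl : j + l = X.dim) : W.tr X (W.cl X D ^ j * W.cl X D ^ l) ≠ 0 := by
  rw [← pow_add, hjl, ← cl_divPow_fund, W.tr_cl (divPow_fund_mem hD _)]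
  exact Rat.cast_ne_zero.2 he

/-- A positive defect in codimension `j` gives a proper stable subspace. -/
theorem exists_stb (hlev : ∀ j ≤ X.dim, genTate Φ X s j = genT Φ X j) {j e : ℕ} (hj : j ≤ X.dim)
    (h : finrank W.K (genT Φ X j) = numRank ops X j + e) (he0 : 0 < e) :
    ∃ U ≤ VE Φ X s (2 * j) ((card Φ X s : W.K) ^ j), Stb U ∧ U ≠ ⊥ ∧
      U ≠ VE Φ X s (2 * j) ((card Φ X s : W.K) ^ j) := by
  obtain ⟨l, hl⟩ := Nat.exists_eq_add_of_le hj
  have hV : VE Φ X s (2 * j) ((card Φ X s : W.K) ^ j) = genT Φ X j := hlev j hj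
  rw [hV]
  have hle := span_le_genT Φ X j
  have h1 : ∀ i : ℕ, W.cl X D ^ i ∈ spanCycles W X (i : ℕ) := by
    intro i
    rw [← cl_divPow_fund]
    exact mem_span_cl (divPow_fund_mem hD i)
  have hne := tr_pow_ne (W := W) hD he hl.symm
  by_cases hEq : spanCycles W X (j : ℕ) = genT Φ X j
  · refine ⟨perp W (spanCycles W X (j : ℕ)) (spanCycles W X (l : ℕ)),
      fun x hx => hle hx.1, stb_num, ?_, ?_⟩
    · intro h0
      have hinj : Function.Injective (pair W X j l) := by
        refine (injective_iff_map_eq_zero _).2 ?_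
        rintro ⟨a, ha⟩ h2
        apply Subtype.ext
        have h3 : a ∈ perp W (spanCycles W X (j : ℕ)) (spanCycles W X (l : ℕ)) :=
          ⟨ha, fun w hw => congrArg (fun F => F ⟨w, hw⟩) h2⟩
        rw [h0, Submodule.mem_bot] at h3
        exact h3
      have h4 : numRank ops X j = finrank W.K (spanCycles W X (j : ℕ)) := by
        rw [numRank_eq (W := W) hj, show X.dim - j = l by omega]
        exact LinearMap.finrank_range_of_inj hinj
      rw [← hEq] at h
      omega
    · intro h0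
      have h2 : W.cl X D ^ j ∈ perp W (spanCycles W X (j : ℕ)) (spanCycles W X (l : ℕ)) := by
        rw [h0]; exact hle (h1 j)
      exact hne (h2.2 _ (h1 l))
  · refine ⟨spanCycles W X (j : ℕ), hle, stb_span j, ?_, hEq⟩
    intro h0
    have h2 := h1 j
    rw [h0, Submodule.mem_bot] at h2
    rw [h2, zero_mul, map_zero] at hne
    exact hne rfl

end

end Pool.Agent.Q55.Gp
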